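import Pool.Agent.Lib.Cx.Graph
import Pool.Agent.MP_07a0c6_lc.Defs

-- part MP_07a0c6_lc.Basic
section

namespace Pool.Agent.MP_07a0c6_lc

open Pool.Agent.Lib.Cx N68a2faeb N793a5b8e

/-- There is a solution of weight at most `k`. -/
def Sol {V : Type} (G : SimpleGraph V) (k : ℕ) : Prop :=
  ∃ (c : V → ℕ) (D : Finset V), IsColoring G c ∧ IsUpDom G c D ∧ ∑ d ∈ D, c d ≤ k

theorem sol_sq {n : ℕ} (G : SimpleGraph (Fin n)) : Sol G (n * n) := by
  refine ⟨fun v => v.1 + 1, Finset.univ, fun u v h e => h.ne (Fin.ext (by simpa using e)),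
    ⟨fun d _ => by simp, fun v hv => absurd (Finset.mem_univ v) hv⟩, ?_⟩
  calc ∑ d : Fin n, (d.1 + 1) ≤ ∑ _d : Fin n, n := Finset.sum_le_sum fun d _ => d.2
    _ = n * n := by simp

theorem upWeight_le_iff {n : ℕ} (G : SimpleGraph (Fin n)) (k : ℕ) : upWeight G ≤ k ↔ Sol G k := by
  constructor
  · intro h
    obtain ⟨c, D, h1, h2, -⟩ := sol_sq G
    obtain ⟨c', D', h1', h2', h3'⟩ := Nat.sInf_mem (s := {w : ℕ | ∃ (c : Fin n → ℕ)
      (D : Finset (Fin n)), IsColoring G c ∧ IsUpDom G c D ∧ w = ∑ d ∈ D, c d})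
      ⟨_, c, D, h1, h2, rfl⟩
    exact ⟨c', D', h1', h2', h3' ▸ h⟩
  · rintro ⟨c, D, h1, h2, h3⟩
    exact (Nat.sInf_le (by exact ⟨c, D, h1, h2, rfl⟩)).trans h3

/-- A solution on the graph induced on a list of vertices. -/
def SolOn {W : Type} (H : SimpleGraph W) (S : List W) (k : ℕ) : Prop :=
  ∃ (c : W → ℕ) (D : Finset W), (∀ u ∈ S, ∀ v ∈ S, H.Adj u v → c u ≠ c v) ∧
    (∀ d ∈ D, d ∈ S ∧ c d ≠ 0) ∧ (∀ v ∈ S, v ∉ D → ∃ d ∈ D, H.Adj v d ∧ c v < c d) ∧
    ∑ d ∈ D, c d ≤ k

theorem sol_comap_get {W : Type} (H : SimpleGraph W) {S : List W} (hS : S.Nodup) (k : ℕ) :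
    Sol (H.comap S.get) k ↔ SolOn H S k := by
  classical
  have hinj : Function.Injective S.get := List.nodup_iff_injective_get.1 hS
  constructor
  · rintro ⟨c, D, h1, ⟨h2, h3⟩, h4⟩
    let c' : W → ℕ := Function.extend S.get c (fun _ => 0)
    have hc : ∀ i, c' (S.get i) = c i := fun i => hinj.extend_apply _ _ i
    refine ⟨c', D.image S.get, ?_, ?_, ?_, ?_⟩
    · intro u hu v hv h
      obtain ⟨i, rfl⟩ := List.get_of_mem hu
      obtain ⟨j, rfl⟩ := List.get_of_mem hv
      rw [hc, hc]; exact h1 i j h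
    · intro d hd
      obtain ⟨i, hi, rfl⟩ := Finset.mem_image.1 hd
      exact ⟨List.get_mem _ _, by rw [hc]; exact h2 i hi⟩
    · intro v hv hD
      obtain ⟨i, rfl⟩ := List.get_of_mem hv
      obtain ⟨d, hd, e1, e2⟩ := h3 i (fun h => hD (Finset.mem_image_of_mem _ h))
      exact ⟨S.get d, Finset.mem_image_of_mem _ hd, e1, by rw [hc, hc]; exact e2⟩
    · rw [Finset.sum_image (fun a _ b _ h => hinj h)]
      simpa only [hc] using h4
  · rintro ⟨c, D, h1, h2, h3, h4⟩
    refine ⟨fun i => c (S.get i), Finset.univ.filter (fun i => S.get i ∈ D),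
      fun i j h => h1 _ (List.get_mem _ _) _ (List.get_mem _ _) h, ⟨fun d hd => ?_, fun v hv => ?_⟩,
      le_trans ?_ h4⟩
    · exact (h2 _ (by simpa using hd)).2
    · obtain ⟨d, hd, e1, e2⟩ := h3 _ (List.get_mem _ v) (by simpa using hv)
      obtain ⟨j, rfl⟩ := List.get_of_mem (h2 d hd).1
      exact ⟨j, by simpa using hd, e1, e2⟩
    · rw [← Finset.sum_image (s := Finset.univ.filter (fun i => S.get i ∈ D)) (g := S.get) (f := c)
        (fun a _ b _ h => hinj h)]
      refine Finset.sum_le_sum_of_subset fun d hd => ?_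
      obtain ⟨i, hi, rfl⟩ := Finset.mem_image.1 hd
      simpa using hi

/-- The instances of UCW. -/
def Inst (C : (n : ℕ) → SimpleGraph (Fin n) → Prop) : List (List Bool) × ℕ → Prop :=
  GraphInst (fun n G k => C n G ∧ 0 < k ∧ upWeight G ≤ k)

theorem ucw_eq (C : (n : ℕ) → SimpleGraph (Fin n) → Prop) : UCW C = langOf (Inst C) := by
  funext x
  simp only [UCW, langOf, decide_eq_decide]
  constructor
  · rintro ⟨n, G, k, h1, h2, h3, rfl⟩
    exact ⟨_, rfl, n, G, rfl, h1, h2, h3⟩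
  · rintro ⟨⟨M, k⟩, rfl, n, G, h0, h1, h2, h3⟩
    obtain rfl : adjRows G = M := h0
    exact ⟨n, G, k, h1, h2, h3, rfl⟩

/-- The verifier for a solution. -/
def Check (M : List (List Bool)) (k : ℕ) (cs : List ℕ) (ds : List Bool) : Prop :=
  (∀ i < M.length, ∀ j < M.length, ent M i j = true → cs.getD i 0 ≠ cs.getD j 0) ∧
  (∀ i < M.length, ds.getD i false = true → cs.getD i 0 ≠ 0) ∧
  (∀ i < M.length, ds.getD i false = false → ∃ j < M.length, ds.getD j false = true ∧
    ent M i j = true ∧ cs.getD i 0 < cs.getD j 0) ∧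
  ((List.range M.length).map (fun i => if ds.getD i false = true then cs.getD i 0 else 0)).sum ≤ k

theorem sum_range_eq (n : ℕ) (f : ℕ → ℕ) : ((List.range n).map f).sum = ∑ i : Fin n, f i := by
  rw [Fin.sum_univ_eq_sum_range f n]
  rfl

theorem check_sound {n : ℕ} (G : SimpleGraph (Fin n)) (k : ℕ) (cs : List ℕ) (ds : List Bool)
    (h : Check (adjRows G) k cs ds) : Sol G k := by
  obtain ⟨h1, h2, h3, h4⟩ := h
  rw [length_adjRows] at h1 h2 h3 h4
  refine ⟨fun i => cs.getD i 0, Finset.univ.filter (fun i => ds.getD i false = true),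
    fun i j h => h1 i i.2 j j.2 ((ent_adjRows G i j).2 h), ⟨fun d hd => ?_, fun v hv => ?_⟩, ?_⟩
  · exact h2 d d.2 (by simpa using hd)
  · obtain ⟨j, hj, e1, e2, e3⟩ := h3 v v.2 (by simpa using hv)
    exact ⟨⟨j, hj⟩, by simpa using e1, (ent_adjRows G v ⟨j, hj⟩).1 e2, e3⟩
  · rw [sum_range_eq] at h4
    rw [Finset.sum_filter]
    exact h4

theorem check_complete {n : ℕ} (G : SimpleGraph (Fin n)) (k : ℕ) (h : Sol G k) :
    ∃ cs ds, size cs ≤ n * (2 * size k + 1) ∧ size ds ≤ 3 * n ∧ Check (adjRows G) k cs ds := by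
  classical
  obtain ⟨c, D, h1, ⟨h2, h3⟩, h4⟩ := h
  have hc : ∀ i : Fin n, (List.ofFn c).getD i 0 = c i := fun i => by simp
  have hd : ∀ i : Fin n, (List.ofFn (fun i => decide (i ∈ D))).getD i false = decide (i ∈ D) :=
    fun i => by simp
  have hD : ∀ d ∈ D, c d ≤ k := fun d hd =>
    (Finset.single_le_sum (f := c) (fun _ _ => Nat.zero_le _) hd).trans h4
  refine ⟨List.ofFn c, List.ofFn (fun i => decide (i ∈ D)), ?_, by simp [size_listBool], ?_⟩
  · have := size_list_le (List.ofFn c) (size k) fun a ha => by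
      obtain ⟨i, rfl⟩ := List.mem_ofFn.1 ha
      refine size_nat_mono ?_
      by_cases hi : i ∈ D
      · exact hD i hi
      · obtain ⟨d, hd, -, e⟩ := h3 i hi
        exact e.le.trans (hD d hd)
    simpa using this
  · unfold Check
    rw [length_adjRows]
    refine ⟨fun i hi j hj h => ?_, fun i hi h => ?_, fun i hi h => ?_, ?_⟩
    · rw [hc ⟨i, hi⟩, hc ⟨j, hj⟩]
      exact h1 _ _ ((ent_adjRows' G hi hj).1 h)
    · rw [hc ⟨i, hi⟩]
      rw [hd ⟨i, hi⟩] at h
      exact h2 _ (by simpa using h)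
    · rw [hd ⟨i, hi⟩] at h
      obtain ⟨d, hd', e1, e2⟩ := h3 ⟨i, hi⟩ (by simpa using h)
      refine ⟨d, d.2, by rw [hd]; simpa using hd', (ent_adjRows G ⟨i, hi⟩ d).2 e1, ?_⟩
      rw [hc ⟨i, hi⟩, hc]; exact e2
    · rw [sum_range_eq]
      simp only [hc, hd, decide_eq_true_eq]
      rw [← Finset.sum_filter]
      simpa using h4

/-- UCW is in NP for a class with polynomial certificates. -/
theorem inst_mem_NP {β : Type} [Enc β] [Dec β] (C : (n : ℕ) → SimpleGraph (Fin n) → Prop)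
    (R : List (List Bool) × β → Prop) (hR : PP R) (p : Polynomial ℕ)
    (sound : ∀ n G b, R (adjRows G, b) → C n G)
    (complete : ∀ n G, C n G → ∃ b, size b ≤ p.eval n ∧ R (adjRows G, b)) :
    langOf (Inst C) ∈ NP := by
  refine langOf_mem_NP (β := β × List ℕ × List Bool)
    (fun z => IsAdjRows z.1.1 ∧ R (z.1.1, z.2.1) ∧ 0 < z.1.2 ∧ Check z.1.1 z.1.2 z.2.2.1 z.2.2.2)
    (by unfold Check; fun_prop)
    (fun z => 2 * p.eval z.1.length + 1 + (2 * (z.1.length * (2 * size z.2 + 1)) + 1 +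
      3 * z.1.length)) (by fun_prop) ?_ ?_
  · rintro ⟨M, k⟩ ⟨b, cs, ds⟩ ⟨h1, h2, h3, h4⟩
    obtain ⟨G, hG⟩ := h1.exists_graph
    simp only at hG h2 h3 h4
    refine ⟨_, G, hG, sound _ G b (by rw [hG]; exact h2), h3, (upWeight_le_iff G k).2 ?_⟩
    exact check_sound G k cs ds (by rw [hG]; exact h4)
  · rintro ⟨M, k⟩ ⟨n, G, h0, h1, h2, h3⟩
    obtain rfl : adjRows G = M := h0
    obtain ⟨b, e1, e2⟩ := complete n G h1
    obtain ⟨cs, ds, e3, e4, e5⟩ := check_complete G k ((upWeight_le_iff G k).1 h3)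
    refine ⟨(b, cs, ds), ?_, isAdjRows_adjRows G, e2, h2, e5⟩
    simp only [size_prod, length_adjRows]
    omega

theorem bipartite_mem_NP : langOf (Inst (fun _ G => G.IsBipartite)) ∈ NP := by
  refine inst_mem_NP (β := List Bool) _ (fun z => ∀ i < z.1.length, ∀ j < z.1.length,
    ent z.1 i j = true → z.2.getD i false ≠ z.2.getD j false) (by fun_prop)
    (3 * Polynomial.X) ?_ ?_
  · intro n G b h
    simp only [length_adjRows] at h
    have := (SimpleGraph.Coloring.mk (G := G) (α := Bool) (fun i => b.getD i false)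
      (fun {i j} hij => h i i.2 j j.2 ((ent_adjRows G i j).2 hij))).colorable
    simpa using this
  · rintro n G ⟨c⟩
    refine ⟨List.ofFn (fun i => decide (c i = 0)), by simp [size_listBool], ?_⟩
    simp only [length_adjRows]
    intro i hi j hj h
    have := c.valid ((ent_adjRows' G hi hj).1 h)
    simp only [List.getD_eq_getElem?_getD, List.getElem?_ofFn, hi, hj, dite_true, Option.getD_some,
      ne_eq, decide_eq_decide]
    revert this
    generalize c ⟨i, hi⟩ = a
    generalize c ⟨j, hj⟩ = b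
    revert a b
    decide

/-- Interval graphs have models by closed intervals with small integer endpoints. -/
theorem interval_small {n : ℕ} (G : SimpleGraph (Fin n)) (h : IsIntervalGraph G) :
    ∃ a b : Fin n → ℕ, (∀ v, a v ≤ b v ∧ b v ≤ 2 * n) ∧
      ∀ u v, G.Adj u v ↔ u ≠ v ∧ a u ≤ b v ∧ a v ≤ b u := by
  classical
  obtain ⟨I, h1, h2⟩ := h
  have hp : ∀ u v, ∃ x, x ∈ I u ∧ ((I u ∩ I v).Nonempty → ∃ y, y = x ∧ y ∈ I v) ∧
      True := by
    intro u v
    by_cases hne : (I u ∩ I v).Nonempty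
    · obtain ⟨x, hx⟩ := hne
      exact ⟨x, hx.1, fun _ => ⟨x, rfl, hx.2⟩, trivial⟩
    · obtain ⟨x, hx⟩ := (h1 u).1
      exact ⟨x, hx, fun h => absurd h hne, trivial⟩
  choose p hp1 hp2 using hp
  let P : Fin n → Finset ℝ := fun u =>
    (Finset.univ.image (fun z : Fin n × Fin n => p z.1 z.2)).filter (· ∈ I u)
  have hP : ∀ u, (P u).Nonempty := fun u =>
    ⟨p u u, Finset.mem_filter.2 ⟨Finset.mem_image.2 ⟨(u, u), by simp, rfl⟩, hp1 u u⟩⟩
  let lo : Fin n → ℝ := fun u => (P u).min' (hP u)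
  let hi : Fin n → ℝ := fun u => (P u).max' (hP u)
  have hlo : ∀ u, lo u ∈ I u := fun u => (Finset.mem_filter.1 ((P u).min'_mem (hP u))).2
  have hhi : ∀ u, hi u ∈ I u := fun u => (Finset.mem_filter.1 ((P u).max'_mem (hP u))).2
  have hlh : ∀ u, lo u ≤ hi u := fun u => (P u).min'_le _ ((P u).max'_mem (hP u))
  have key : ∀ u v, (I u ∩ I v).Nonempty ↔ lo u ≤ hi v ∧ lo v ≤ hi u := by
    intro u v
    constructor
    · intro hne
      obtain ⟨y, rfl, hy⟩ := (hp2 u v).1 hne
      have m1 : p u v ∈ P u :=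
        Finset.mem_filter.2 ⟨Finset.mem_image.2 ⟨(u, v), by simp, rfl⟩, hp1 u v⟩
      have m2 : p u v ∈ P v := Finset.mem_filter.2 ⟨Finset.mem_image.2 ⟨(u, v), by simp, rfl⟩, hy⟩
      exact ⟨((P u).min'_le _ m1).trans ((P v).le_max' _ m2),
        ((P v).min'_le _ m2).trans ((P u).le_max' _ m1)⟩
    · rintro ⟨e1, e2⟩
      rcases le_total (lo u) (lo v) with e | e
      · exact ⟨lo v, (h1 u).2.out (hlo u) (hhi u) ⟨e, e2⟩, hlo v⟩
      · exact ⟨lo u, hlo u, (h1 v).2.out (hlo v) (hhi v) ⟨e, e1⟩⟩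
  let E : Finset ℝ := Finset.univ.image lo ∪ Finset.univ.image hi
  have hE : E.card ≤ 2 * n := by
    refine (Finset.card_union_le _ _).trans ?_
    have a1 := Finset.card_image_le (s := (Finset.univ : Finset (Fin n))) (f := lo)
    have a2 := Finset.card_image_le (s := (Finset.univ : Finset (Fin n))) (f := hi)
    simp only [Finset.card_univ, Fintype.card_fin] at a1 a2
    omega
  let rk : ℝ → ℕ := fun x => (E.filter (· < x)).card
  have hrk : ∀ x, ∀ y ∈ E, rk x ≤ rk y ↔ x ≤ y := by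
    intro x y hy
    constructor
    · intro h
      by_contra hxy
      push Not at hxy
      have : E.filter (· < y) ⊂ E.filter (· < x) := by
        refine ⟨fun z hz => ?_, fun hs => ?_⟩
        · rw [Finset.mem_filter] at hz ⊢
          exact ⟨hz.1, hz.2.trans hxy⟩
        · have := hs (Finset.mem_filter.2 ⟨hy, hxy⟩)
          simp at this
      exact absurd (Finset.card_lt_card this) (not_lt.2 h)
    · intro h
      refine Finset.card_le_card fun z hz => ?_
      rw [Finset.mem_filter] at hz ⊢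
      exact ⟨hz.1, hz.2.trans_le h⟩
  have hE2 : ∀ u, hi u ∈ E := fun u =>
    Finset.mem_union_right _ (Finset.mem_image_of_mem _ (by simp))
  refine ⟨fun u => rk (lo u), fun u => rk (hi u), fun v => ⟨(hrk _ _ (hE2 v)).2 (hlh v),
    (Finset.card_filter_le _ _).trans hE⟩, fun u v => ?_⟩
  rw [h2, key, hrk _ _ (hE2 v), hrk _ _ (hE2 u)]

theorem interval_of_nat {V : Type} (G : SimpleGraph V) (a b : V → ℕ) (h1 : ∀ v, a v ≤ b v)
    (h2 : ∀ u v, G.Adj u v ↔ u ≠ v ∧ a u ≤ b v ∧ a v ≤ b u) : IsIntervalGraph G := by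
  refine ⟨fun v => Set.Icc (a v : ℝ) (b v), fun v => ⟨Set.nonempty_Icc.2 (by exact_mod_cast h1 v),
    Set.ordConnected_Icc⟩, fun u v => ?_⟩
  rw [h2, Set.Icc_inter_Icc, Set.nonempty_Icc]
  have e1 := h1 u
  have e2 := h1 v
  simp only [sup_le_iff, le_inf_iff, Nat.cast_le]
  tauto

theorem interval_mem_NP : langOf (Inst (fun _ G => IsIntervalGraph G)) ∈ NP := by
  refine inst_mem_NP (β := List ℕ × List ℕ) _ (fun z => ∀ i < z.1.length,
    z.2.1.getD i 0 ≤ z.2.2.getD i 0 ∧ ∀ j < z.1.length,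
    (ent z.1 i j = true ↔ i ≠ j ∧ z.2.1.getD i 0 ≤ z.2.2.getD j 0 ∧
      z.2.1.getD j 0 ≤ z.2.2.getD i 0)) (by fun_prop)
    (3 * (Polynomial.X * (4 * Polynomial.X + 1)) + 1) ?_ ?_
  · intro n G b h
    simp only [length_adjRows] at h
    refine interval_of_nat G (fun i => b.1.getD i 0) (fun i => b.2.getD i 0)
      (fun v => (h v v.2).1) fun u v => ?_
    rw [← ent_adjRows, (h u u.2).2 v v.2, Ne, Ne, Fin.ext_iff]
  · intro n G h
    obtain ⟨a, b, h1, h2⟩ := interval_small G h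
    have hs : ∀ f : Fin n → ℕ, (∀ v, f v ≤ 2 * n) → size (List.ofFn f) ≤ n * (4 * n + 1) := by
      intro f hf
      have := size_list_le (List.ofFn f) (2 * n) fun x hx => by
        obtain ⟨i, rfl⟩ := List.mem_ofFn.1 hx
        exact (size_nat_le_self _).trans (hf i)
      rw [List.length_ofFn] at this
      refine this.trans (le_of_eq (by ring))
    refine ⟨(List.ofFn a, List.ofFn b), ?_, ?_⟩
    · have e1 := hs a (fun v => (h1 v).1.trans (h1 v).2)
      have e2 := hs b (fun v => (h1 v).2)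
      simp only [size_prod, Polynomial.eval_add, Polynomial.eval_mul, Polynomial.eval_ofNat,
        Polynomial.eval_X, Polynomial.eval_one]
      omega
    · simp only [length_adjRows]
      intro i hi
      have ha : ∀ (f : Fin n → ℕ) i (hi : i < n), (List.ofFn f).getD i 0 = f ⟨i, hi⟩ :=
        fun f i hi => by simp [hi]
      refine ⟨by rw [ha a i hi, ha b i hi]; exact (h1 _).1, fun j hj => ?_⟩
      rw [ent_adjRows' G hi hj, h2, ha a i hi, ha b i hi, ha a j hj, ha b j hj, Ne, Ne,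
        Fin.ext_iff]

end Pool.Agent.MP_07a0c6_lc

end

-- part MP_07a0c6_lc.Route
section

/-! Routing of colours along lines with shuffle events, and the reduction from 3-SAT. -/

namespace Pool.Agent.MP_07a0c6_lc

open Pool.Agent.Lib.Cx Function

abbrev Ln : Type := ℕ × ℕ

section general

variable (Ls : List Ln)

/-- The lines carry the colours below the number of lines, each once. -/
def Bij (κ : Ln → ℕ) : Prop :=
  (∀ a ∈ Ls, ∀ b ∈ Ls, κ a = κ b → a = b) ∧ ∀ a ∈ Ls, κ a < Ls.length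

/-- One shuffle of the lines in `P`. -/
def Step (P : List Ln) (κ κ' : Ln → ℕ) : Prop := Bij Ls κ' ∧ ∀ a ∈ Ls, a ∉ P → κ' a = κ a

/-- A sequence of shuffles. -/
def Seq : List (List Ln) → (Ln → ℕ) → (Ln → ℕ) → Prop
  | [], κ, κ' => κ' = κ
  | P :: evs, κ, κ' => ∃ κ1, Step Ls P κ κ1 ∧ Seq evs κ1 κ'

/-- The lines in `P` carry exactly the smallest colours. -/
def Test (P : List Ln) (κ : Ln → ℕ) : Prop := ∀ a ∈ Ls, (κ a < P.length ↔ a ∈ P)

variable {Ls}

theorem Bij.surj (hn : Ls.Nodup) {κ : Ln → ℕ} (h : Bij Ls κ) {x : ℕ} (hx : x < Ls.length) :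
    ∃ a ∈ Ls, κ a = x := by
  have h1 : Ls.toFinset.image κ = Finset.range Ls.length := by
    refine Finset.eq_of_subset_of_card_le (fun y hy => ?_) ?_
    · obtain ⟨a, ha, rfl⟩ := Finset.mem_image.1 hy
      exact Finset.mem_range.2 (h.2 a (List.mem_toFinset.1 ha))
    · rw [Finset.card_image_of_injOn (fun a ha b hb e =>
        h.1 a (by simpa using ha) b (by simpa using hb) e), List.toFinset_card_of_nodup hn]
      simp
  have h2 : x ∈ Ls.toFinset.image κ := by rw [h1]; exact Finset.mem_range.2 hx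
  obtain ⟨a, ha, e⟩ := Finset.mem_image.1 h2
  exact ⟨a, List.mem_toFinset.1 ha, e⟩

theorem Step.src (hn : Ls.Nodup) {P : List Ln} {κ κ' : Ln → ℕ} (h0 : Bij Ls κ)
    (h : Step Ls P κ κ') {a : Ln} (ha : a ∈ Ls) (hP : a ∈ P) : ∃ b ∈ Ls, b ∈ P ∧ κ' a = κ b := by
  obtain ⟨b, hb, e⟩ := h0.surj hn (h.1.2 a ha)
  refine ⟨b, hb, ?_, e.symm⟩
  by_contra hbP
  have := h.1.1 a ha b hb (by rw [h.2 b hb hbP, e])
  exact hbP (this ▸ hP)

theorem Step.symm {P : List Ln} {κ κ' : Ln → ℕ} (h0 : Bij Ls κ) (h : Step Ls P κ κ') :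
    Step Ls P κ' κ := ⟨h0, fun a ha hP => (h.2 a ha hP).symm⟩

theorem Step.single (hn : Ls.Nodup) {x : Ln} {κ κ' : Ln → ℕ} (h0 : Bij Ls κ)
    (h : Step Ls [x] κ κ') {a : Ln} (ha : a ∈ Ls) : κ' a = κ a := by
  by_cases hP : a ∈ [x]
  · obtain ⟨b, -, hb, e⟩ := h.src hn h0 ha hP
    simp only [List.mem_singleton] at hP hb
    rw [e, hP, hb]
  · exact h.2 a ha hP

theorem Step.test (hn : Ls.Nodup) {P Q : List Ln} {κ κ' : Ln → ℕ} (h0 : Bij Ls κ)
    (h : Step Ls P κ κ') (hPQ : P ⊆ Q) (ht : Test Ls Q κ) : Test Ls Q κ' := by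
  intro a ha
  by_cases hP : a ∈ P
  · obtain ⟨b, hb, hb', e⟩ := h.src hn h0 ha hP
    rw [e, ht b hb]
    exact ⟨fun _ => hPQ hP, fun _ => hPQ hb'⟩
  · rw [h.2 a ha hP]; exact ht a ha

theorem Step.pair (hn : Ls.Nodup) {x y : Ln} {κ κ' : Ln → ℕ} (h0 : Bij Ls κ)
    (h : Step Ls [x, y] κ κ') (hx : x ∈ Ls) (hy : y ∈ Ls) (hne : x ≠ y) :
    (κ' x = κ x ∧ κ' y = κ y) ∨ (κ' x = κ y ∧ κ' y = κ x) := by
  obtain ⟨a, -, ha, e1⟩ := h.src hn h0 hx (by simp)
  obtain ⟨b, -, hb, e2⟩ := h.src hn h0 hy (by simp)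
  have : κ' x ≠ κ' y := fun e => hne (h.1.1 x hx y hy e)
  simp only [List.mem_cons, List.not_mem_nil, or_false] at ha hb
  rcases ha with rfl | rfl <;> rcases hb with rfl | rfl <;> simp_all

theorem Seq.bij {evs : List (List Ln)} {κ κ' : Ln → ℕ} (h0 : Bij Ls κ) (h : Seq Ls evs κ κ') :
    Bij Ls κ' := by
  induction evs generalizing κ with
  | nil => exact h ▸ h0
  | cons P evs ih => obtain ⟨κ1, h1, h2⟩ := h; exact ih h1.1 h2

theorem seq_append {e1 e2 : List (List Ln)} {κ κ' : Ln → ℕ} :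
    Seq Ls (e1 ++ e2) κ κ' ↔ ∃ κ1, Seq Ls e1 κ κ1 ∧ Seq Ls e2 κ1 κ' := by
  induction e1 generalizing κ with
  | nil => simp [Seq]
  | cons P e1 ih =>
    simp only [List.cons_append, Seq, ih]
    constructor
    · rintro ⟨a, h1, b, h2, h3⟩; exact ⟨b, ⟨a, h1, h2⟩, h3⟩
    · rintro ⟨b, ⟨a, h1, h2⟩, h3⟩; exact ⟨a, h1, b, h2, h3⟩

theorem Seq.untouched {evs : List (List Ln)} {κ κ' : Ln → ℕ} (h : Seq Ls evs κ κ') {a : Ln}
    (ha : a ∈ Ls) (hP : ∀ P ∈ evs, a ∉ P) : κ' a = κ a := by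
  induction evs generalizing κ with
  | nil => rw [h]
  | cons P evs ih =>
    obtain ⟨κ1, h1, h2⟩ := h
    rw [ih h2 (fun Q hQ => hP Q (by simp [hQ])), h1.2 a ha (hP P (by simp))]

theorem Seq.closed (hn : Ls.Nodup) {evs : List (List Ln)} {κ κ' : Ln → ℕ} (h0 : Bij Ls κ)
    (h : Seq Ls evs κ κ') (U : Ln → Prop) (hU : ∀ P ∈ evs, ∀ a ∈ P, ∀ b ∈ P, U a → U b)
    {a : Ln} (ha : a ∈ Ls) (hUa : U a) : ∃ b ∈ Ls, U b ∧ κ' a = κ b := by
  induction evs generalizing κ with
  | nil => exact ⟨a, ha, hUa, by rw [h]⟩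
  | cons P evs ih =>
    obtain ⟨κ1, h1, h2⟩ := h
    obtain ⟨b, hb, hUb, e⟩ := ih h1.1 h2 (fun Q hQ => hU Q (by simp [hQ]))
    by_cases hP : b ∈ P
    · obtain ⟨c, hc, hc', e'⟩ := h1.src hn h0 hb hP
      exact ⟨c, hc, hU P (by simp) b hP c hc' hUb, e.trans e'⟩
    · exact ⟨b, hb, hUb, e.trans (h1.2 b hb hP)⟩

theorem seq_iff_time {evs : List (List Ln)} {κ κ' : Ln → ℕ} :
    Seq Ls evs κ κ' ↔ ∃ col : ℕ → Ln → ℕ, col 0 = κ ∧ col evs.length = κ' ∧
      ∀ t < evs.length, Step Ls (evs.getD t []) (col t) (col (t + 1)) := by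
  induction evs generalizing κ with
  | nil =>
    simp only [Seq, List.length_nil, not_lt_zero, false_imp_iff, implies_true, and_true]
    exact ⟨fun h => ⟨fun _ => κ, rfl, h.symm⟩, fun ⟨col, h1, h2⟩ => h2.symm.trans h1⟩
  | cons P evs ih =>
    simp only [Seq, ih, List.length_cons]
    constructor
    · rintro ⟨κ1, h1, col, rfl, rfl, h2⟩
      refine ⟨fun t => Nat.casesOn t κ col, rfl, rfl, fun t ht => ?_⟩
      cases t with
      | zero => exact h1
      | succ t => exact h2 t (by omega)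
    · rintro ⟨col, rfl, rfl, h⟩
      exact ⟨col 1, h 0 (by omega), fun t => col (t + 1), rfl, rfl,
        fun t ht => h (t + 1) (by omega)⟩

theorem Step.refl {P : List Ln} {κ : Ln → ℕ} (h0 : Bij Ls κ) : Step Ls P κ κ :=
  ⟨h0, fun _ _ _ => rfl⟩

theorem Step.swap {P : List Ln} {κ : Ln → ℕ} (h0 : Bij Ls κ) {x y : Ln} (hx : x ∈ Ls)
    (hy : y ∈ Ls) (hx' : x ∈ P) (hy' : y ∈ P) : Step Ls P κ (κ ∘ Equiv.swap x y) := by
  have hm : ∀ a ∈ Ls, Equiv.swap x y a ∈ Ls := fun a ha => by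
    rw [Equiv.swap_apply_def]; split_ifs <;> assumption
  refine ⟨⟨fun a ha b hb e => (Equiv.swap x y).injective (h0.1 _ (hm a ha) _ (hm b hb) e),
    fun a ha => h0.2 _ (hm a ha)⟩, fun a _ hP => ?_⟩
  have h1 : a ≠ x := fun e => hP (e ▸ hx')
  have h2 : a ≠ y := fun e => hP (e ▸ hy')
  rw [Function.comp, Equiv.swap_apply_of_ne_of_ne h1 h2]

theorem exists_bij_tests (hn : Ls.Nodup) {P Q : List Ln} (hPQ : (P ++ Q).Nodup)
    (hs : P ++ Q ⊆ Ls) : ∃ κ, Bij Ls κ ∧ Test Ls (P ++ Q) κ ∧ Test Ls P κ := by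
  let L := (P ++ Q) ++ Ls.filter (· ∉ P ++ Q)
  have hperm : L.Perm Ls := by
    refine (List.perm_ext_iff_of_nodup ?_ hn).2 fun a => ?_
    · refine List.nodup_append.2 ⟨hPQ, hn.filter _, fun a ha b hb e => ?_⟩
      subst e
      simp only [List.mem_filter, decide_eq_true_eq] at hb
      exact hb.2 ha
    · simp only [L, List.mem_append (s := P ++ Q), List.mem_filter, decide_eq_true_eq]
      have := @hs a
      tauto
  have key : ∀ (A B : List Ln) (a : Ln), (A ++ B).idxOf a < A.length ↔ a ∈ A := by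
    intro A B a
    by_cases h : a ∈ A
    · rw [List.idxOf_append_of_mem h]; simp [h, List.idxOf_lt_length_iff]
    · rw [List.idxOf_append_of_notMem h]; simp [h]
  refine ⟨fun a => L.idxOf a, ⟨fun a ha b hb e => ?_, fun a ha => ?_⟩, fun a _ => key _ _ a,
    fun a _ => ?_⟩
  · exact (List.idxOf_inj (hperm.mem_iff.2 ha)).1 e
  · rw [← hperm.length_eq]; exact List.idxOf_lt_length_of_mem (hperm.mem_iff.2 ha)
  · simp only [L, List.append_assoc]; exact key _ _ a

theorem occ_sound (hn : Ls.Nodup) {A B L : Ln} (hA : A ∈ Ls) (hB : B ∈ Ls) (hL : L ∈ Ls)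
    (h1 : A ≠ L) (h2 : B ≠ L) (h3 : A ≠ B) {κ κ' : Ln → ℕ} (h0 : Bij Ls κ)
    (h : Seq Ls [[A, L], [B, L]] κ κ') {n q : ℕ} (hnq : n ≤ q) (a1 : n ≤ κ A) (a2 : n ≤ κ' A)
    (a3 : q ≤ κ B) (a4 : n ≤ κ' B) : (κ' L < n ↔ κ L < n) ∧ (κ' B < q → n ≤ κ L) := by
  obtain ⟨k1, s1, k2, s2, e⟩ := h
  obtain rfl : κ' = k2 := e
  have b1 := s1.pair hn h0 hA hL h1
  have b2 := s2.pair hn s1.1 hB hL h2
  have b3 := s1.2 B hB (by simp [h2, h3.symm])
  have b4 := s2.2 A hA (by simp [h1, h3])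
  omega

end general

/-- The lines of the construction for `n` variables and `m` clauses. -/
def lines (n m : ℕ) : List Ln :=
  (List.range 8 ×ˢ List.range (n + m)).filter (fun a => (a.1 ≤ 1 ∧ a.2 < n) ∨ (2 ≤ a.1 ∧ a.2 < m))

theorem lines_nodup (n m : ℕ) : (lines n m).Nodup :=
  (List.nodup_range.product List.nodup_range).filter _

theorem mem_lines (n m t i : ℕ) :
    (t, i) ∈ lines n m ↔ (t ≤ 1 ∧ i < n) ∨ (2 ≤ t ∧ t ≤ 7 ∧ i < m) := by
  simp only [lines, List.mem_filter, List.mem_product, List.mem_range, decide_eq_true_eq]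
  omega

/-- The line of a literal. -/
def litLine (l : ℕ × Bool) : Ln := (if l.2 = true then 0 else 1, l.1)

theorem litLine_le (l : ℕ × Bool) : (litLine l).1 ≤ 1 := by
  unfold litLine; split_ifs <;> simp

def pairEvs (n : ℕ) : List (List Ln) := (List.range n).map (fun i => [(0, i), (1, i)])

def block (z : Clause3 ℕ × ℕ) : List (List Ln) :=
  [[(2, z.2), (3, z.2), (4, z.2)],
   [(2, z.2), litLine z.1.1], [(5, z.2), litLine z.1.1],
   [(3, z.2), litLine z.1.2.1], [(6, z.2), litLine z.1.2.1],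
   [(4, z.2), litLine z.1.2.2], [(7, z.2), litLine z.1.2.2],
   [(5, z.2), (6, z.2), (7, z.2)]]

def mainEvs (n : ℕ) (φ : List (Clause3 ℕ)) : List (List Ln) :=
  pairEvs n ++ (φ.zipIdx.flatMap block ++ pairEvs n)

/-- The lines of one kind. -/
def kind (t n : ℕ) : List Ln := (List.range n).map (fun i => (t, i))

theorem mem_kind (t n s i : ℕ) : (s, i) ∈ kind t n ↔ s = t ∧ i < n := by
  simp only [kind, List.mem_map, List.mem_range, Prod.mk.injEq]
  constructor
  · rintro ⟨j, h, rfl, rfl⟩; exact ⟨rfl, h⟩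
  · rintro ⟨rfl, h⟩; exact ⟨i, h, rfl, rfl⟩

@[simp] theorem length_kind (t n : ℕ) : (kind t n).length = n := by simp [kind]

theorem kind_nodup (t n : ℕ) : (kind t n).Nodup :=
  List.nodup_range.map (fun _ _ h => congrArg Prod.snd h)

theorem kinds_nodup {s t : ℕ} (h : s ≠ t) (n m : ℕ) : (kind s n ++ kind t m).Nodup := by
  refine List.nodup_append.2 ⟨kind_nodup _ _, kind_nodup _ _, ?_⟩
  rintro ⟨a, i⟩ ha ⟨b, j⟩ hb e
  rw [mem_kind] at ha hb
  simp only [Prod.mk.injEq] at e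
  omega

/-- The routing problem of a formula. -/
def Route (n : ℕ) (φ : List (Clause3 ℕ)) : Prop :=
  ∃ κ κ', Bij (lines n φ.length) κ ∧ Test (lines n φ.length) (kind 0 n ++ kind 2 φ.length) κ ∧
    Test (lines n φ.length) (kind 0 n) κ ∧ Seq (lines n φ.length) (mainEvs n φ) κ κ' ∧
    Test (lines n φ.length) (kind 0 n) κ' ∧
    Test (lines n φ.length) (kind 0 n ++ kind 5 φ.length) κ'

theorem block_untouched (z : Clause3 ℕ × ℕ) (t j : ℕ) (ht : 2 ≤ t) (hj : j ≠ z.2) :
    ∀ P ∈ block z, (t, j) ∉ P := by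
  have h : ∀ l, (t, j) ≠ litLine l := fun l e => by
    have := litLine_le l
    rw [← e] at this
    simp only at this
    omega
  simp [block, h, hj]

theorem block_sound {n m : ℕ} (z : Clause3 ℕ × ℕ) (hj : z.2 < m) (h1 : z.1.1.1 < n)
    (h2 : z.1.2.1.1 < n) (h3 : z.1.2.2.1 < n) {κ κ' : Ln → ℕ} (h0 : Bij (lines n m) κ)
    (h : Seq (lines n m) (block z) κ κ')
    (a1 : ∀ t, 2 ≤ t → t ≤ 7 → n ≤ κ (t, z.2) ∧ n ≤ κ' (t, z.2))
    (a2 : ∀ t, 5 ≤ t → t ≤ 7 → n + m ≤ κ (t, z.2)) (a3 : κ' (5, z.2) < n + m) :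
    (∀ t i, t ≤ 1 → i < n → (κ' (t, i) < n ↔ κ (t, i) < n)) ∧
      (n ≤ κ (litLine z.1.1) ∨ n ≤ κ (litLine z.1.2.1) ∨ n ≤ κ (litLine z.1.2.2)) := by
  obtain ⟨⟨l1, l2, l3⟩, j⟩ := z
  simp only at hj h1 h2 h3 a1 a2 a3 ⊢
  have hn := lines_nodup n m
  have hL : ∀ l : ℕ × Bool, l.1 < n → litLine l ∈ lines n m := fun l hl =>
    (mem_lines n m _ _).2 (Or.inl ⟨litLine_le l, hl⟩)
  have hT : ∀ t, 2 ≤ t → t ≤ 7 → (t, j) ∈ lines n m := fun t a b =>
    (mem_lines n m _ _).2 (Or.inr ⟨a, b, hj⟩)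
  have hne : ∀ t l, 2 ≤ t → (t, j) ≠ litLine l := fun t l ht e => by
    have := litLine_le l
    rw [← e] at this
    simp only at this
    omega
  have hb : block ((l1, l2, l3), j) = [[(2, j), (3, j), (4, j)]] ++
      ([[(2, j), litLine l1], [(5, j), litLine l1]] ++
      ([[(3, j), litLine l2], [(6, j), litLine l2]] ++
      ([[(4, j), litLine l3], [(7, j), litLine l3]] ++ [[(5, j), (6, j), (7, j)]]))) := rfl
  rw [hb] at h
  simp only [seq_append] at h
  obtain ⟨k1, ⟨_, s1, rfl⟩, k2, s2, k3, s3, k4, s4, _, s5, rfl⟩ := h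
  have b1 := s1.1
  have b2 := s2.bij b1
  have b3 := s3.bij b2
  have b4 := s4.bij b3
  have c1 : ∀ t, 2 ≤ t → t ≤ 4 → n ≤ k1 (t, j) := fun t a b => by
    obtain ⟨x, -, hx, e⟩ := s1.src hn h0 (hT t a (by omega)) (by simp; omega)
    simp only [List.mem_cons, List.not_mem_nil, or_false] at hx
    rw [e]
    rcases hx with rfl | rfl | rfl <;> exact (a1 _ (by omega) (by omega)).1
  have c2 : ∀ t, 5 ≤ t → t ≤ 7 → n ≤ k4 (t, j) := fun t a b => by
    obtain ⟨x, -, hx, e⟩ := (s5.symm b4).src hn s5.1 (hT t (by omega) b) (by simp; omega)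
    simp only [List.mem_cons, List.not_mem_nil, or_false] at hx
    rw [e]
    rcases hx with rfl | rfl | rfl <;> exact (a1 _ (by omega) (by omega)).2
  have c3 : k4 (5, j) < n + m ∨ k4 (6, j) < n + m ∨ k4 (7, j) < n + m := by
    obtain ⟨x, -, hx, e⟩ := s5.src hn b4 (hT 5 (by omega) (by omega)) (by simp)
    simp only [List.mem_cons, List.not_mem_nil, or_false] at hx
    rcases hx with rfl | rfl | rfl <;> omega
  have u1 : ∀ t, 5 ≤ t → t ≤ 7 → k1 (t, j) = κ (t, j) := fun t a b =>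
    s1.2 _ (hT t (by omega) b) (by simp; omega)
  have u5 : ∀ t, 2 ≤ t → t ≤ 4 → κ' (t, j) = k4 (t, j) := fun t a b =>
    s5.2 _ (hT t a (by omega)) (by simp; omega)
  have u2 : ∀ t, 2 ≤ t → t ≤ 7 → t ≠ 2 → t ≠ 5 → k2 (t, j) = k1 (t, j) := fun t a b c d =>
    s2.untouched (hT t a b) (by simp [hne t _ a, c, d])
  have u3 : ∀ t, 2 ≤ t → t ≤ 7 → t ≠ 3 → t ≠ 6 → k3 (t, j) = k2 (t, j) := fun t a b c d =>
    s3.untouched (hT t a b) (by simp [hne t _ a, c, d])
  have u4 : ∀ t, 2 ≤ t → t ≤ 7 → t ≠ 4 → t ≠ 7 → k4 (t, j) = k3 (t, j) := fun t a b c d =>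
    s4.untouched (hT t a b) (by simp [hne t _ a, c, d])
  have o1 := occ_sound hn (hT 2 (by omega) (by omega)) (hT 5 (by omega) (by omega)) (hL l1 h1)
    (hne _ _ (by omega)) (hne _ _ (by omega)) (by simp) b1 s2 (Nat.le_add_right n m)
    (c1 2 (by omega) (by omega))
    (by rw [← u3 2, ← u4 2, ← u5 2] <;> first | omega | exact (a1 2 (by omega) (by omega)).2)
    (by rw [u1 5] <;> first | omega | exact a2 5 (by omega) (by omega))
    (by rw [← u3 5, ← u4 5] <;> first | omega | exact c2 5 (by omega) (by omega))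
  have o2 := occ_sound hn (hT 3 (by omega) (by omega)) (hT 6 (by omega) (by omega)) (hL l2 h2)
    (hne _ _ (by omega)) (hne _ _ (by omega)) (by simp) b2 s3 (Nat.le_add_right n m)
    (by rw [u2 3] <;> first | omega | exact c1 3 (by omega) (by omega))
    (by rw [← u4 3, ← u5 3] <;> first | omega | exact (a1 3 (by omega) (by omega)).2)
    (by rw [u2 6, u1 6] <;> first | omega | exact a2 6 (by omega) (by omega))
    (by rw [← u4 6] <;> first | omega | exact c2 6 (by omega) (by omega))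
  have o3 := occ_sound hn (hT 4 (by omega) (by omega)) (hT 7 (by omega) (by omega)) (hL l3 h3)
    (hne _ _ (by omega)) (hne _ _ (by omega)) (by simp) b3 s4 (Nat.le_add_right n m)
    (by rw [u3 4, u2 4] <;> first | omega | exact c1 4 (by omega) (by omega))
    (by rw [← u5 4] <;> first | omega | exact (a1 4 (by omega) (by omega)).2)
    (by rw [u3 7, u2 7, u1 7] <;> first | omega | exact a2 7 (by omega) (by omega))
    (c2 7 (by omega) (by omega))
  have hV : ∀ t i, t ≤ 1 → i < n → (t, i) ∈ lines n m := fun t i a b =>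
    (mem_lines n m _ _).2 (Or.inl ⟨a, b⟩)
  have v1 : ∀ t i, t ≤ 1 → i < n → k1 (t, i) = κ (t, i) := fun t i a b =>
    s1.2 _ (hV t i a b) (by simp; omega)
  have v5 : ∀ t i, t ≤ 1 → i < n → κ' (t, i) = k4 (t, i) := fun t i a b =>
    s5.2 _ (hV t i a b) (by simp; omega)
  have occ : ∀ {A B : ℕ} {l : ℕ × Bool} {k k' : Ln → ℕ}, 2 ≤ A → 2 ≤ B →
      Seq (lines n m) [[(A, j), litLine l], [(B, j), litLine l]] k k' →
      (k' (litLine l) < n ↔ k (litLine l) < n) →
      ∀ t i, t ≤ 1 → i < n → (k' (t, i) < n ↔ k (t, i) < n) := by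
    intro A B l k k' hA hB s e t i a b
    by_cases h : (t, i) = litLine l
    · rw [h]; exact e
    · rw [s.untouched (hV t i a b) (by simp [h]; omega)]
  have v2 := occ (by omega) (by omega) s2 o1.1
  have v3 := occ (by omega) (by omega) s3 o2.1
  have v4 := occ (by omega) (by omega) s4 o3.1
  refine ⟨fun t i a b => by rw [v5 t i a b, v4 t i a b, v3 t i a b, v2 t i a b, v1 t i a b], ?_⟩
  have d1 := v1 _ _ (litLine_le l1) h1
  have d2 := v1 _ _ (litLine_le l2) h2
  have d3 := v1 _ _ (litLine_le l3) h3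
  have d4 := v2 _ _ (litLine_le l2) h2
  have d5 := v2 _ _ (litLine_le l3) h3
  have d6 := v3 _ _ (litLine_le l3) h3
  have f1 := u3 5 (by omega) (by omega) (by omega) (by omega)
  have f2 := u4 5 (by omega) (by omega) (by omega) (by omega)
  have f3 := u4 6 (by omega) (by omega) (by omega) (by omega)
  change k1 (litLine l1) = κ (litLine l1) at d1
  change k1 (litLine l2) = κ (litLine l2) at d2
  change k1 (litLine l3) = κ (litLine l3) at d3
  change k2 (litLine l2) < n ↔ k1 (litLine l2) < n at d4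
  change k2 (litLine l3) < n ↔ k1 (litLine l3) < n at d5
  change k3 (litLine l3) < n ↔ k2 (litLine l3) < n at d6
  have g1 := o1.2
  have g2 := o2.2
  have g3 := o3.2
  omega

theorem blocks_sound {n m : ℕ} (zs : List (Clause3 ℕ × ℕ)) (hnd : (zs.map Prod.snd).Nodup)
    (hz : ∀ z ∈ zs, z.2 < m ∧ z.1.1.1 < n ∧ z.1.2.1.1 < n ∧ z.1.2.2.1 < n)
    {κ κ' : Ln → ℕ} (h0 : Bij (lines n m) κ) (h : Seq (lines n m) (zs.flatMap block) κ κ')
    (a : ∀ z ∈ zs, (∀ t, 2 ≤ t → t ≤ 7 → n ≤ κ (t, z.2) ∧ n ≤ κ' (t, z.2)) ∧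
      (∀ t, 5 ≤ t → t ≤ 7 → n + m ≤ κ (t, z.2)) ∧ κ' (5, z.2) < n + m) :
    (∀ t i, t ≤ 1 → i < n → (κ' (t, i) < n ↔ κ (t, i) < n)) ∧
      ∀ z ∈ zs, n ≤ κ (litLine z.1.1) ∨ n ≤ κ (litLine z.1.2.1) ∨ n ≤ κ (litLine z.1.2.2) := by
  induction zs generalizing κ with
  | nil =>
    obtain rfl : κ' = κ := h
    simp
  | cons z zs ih =>
    rw [List.flatMap_cons, seq_append] at h
    obtain ⟨k, s1, s2⟩ := h
    rw [List.map_cons, List.nodup_cons] at hnd
    have hne : ∀ y ∈ zs, y.2 ≠ z.2 := fun y hy e => hnd.1 (e ▸ List.mem_map_of_mem hy)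
    obtain ⟨z1, z2, z3, z4⟩ := hz z (by simp)
    obtain ⟨a1, a2, a3⟩ := a z (by simp)
    have u2 : ∀ t, 2 ≤ t → t ≤ 7 → κ' (t, z.2) = k (t, z.2) := fun t b c =>
      s2.untouched ((mem_lines n m _ _).2 (Or.inr ⟨b, c, z1⟩)) fun P hP => by
        obtain ⟨y, hy, hP⟩ := List.mem_flatMap.1 hP
        exact block_untouched y t _ b (hne y hy).symm P hP
    have u1 : ∀ y ∈ zs, ∀ t, 2 ≤ t → t ≤ 7 → k (t, y.2) = κ (t, y.2) := fun y hy t b c =>
      s1.untouched ((mem_lines n m _ _).2 (Or.inr ⟨b, c, (hz y (by simp [hy])).1⟩))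
        (block_untouched z t _ b (hne y hy))
    obtain ⟨r1, r2⟩ := block_sound z z1 z2 z3 z4 h0 s1
      (fun t b c => ⟨(a1 t b c).1, u2 t b c ▸ (a1 t b c).2⟩) a2
      (u2 5 (by omega) (by omega) ▸ a3)
    obtain ⟨r3, r4⟩ := ih hnd.2 (fun y hy => hz y (by simp [hy])) (s1.bij h0) s2 fun y hy => by
      obtain ⟨b1, b2, b3⟩ := a y (by simp [hy])
      exact ⟨fun t b c => ⟨u1 y hy t b c ▸ (b1 t b c).1, (b1 t b c).2⟩,
        fun t b c => u1 y hy t (by omega) c ▸ b2 t b c, b3⟩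
    refine ⟨fun t i b c => (r3 t i b c).trans (r1 t i b c), fun y hy => ?_⟩
    rcases List.mem_cons.1 hy with rfl | hy
    · exact r2
    · obtain ⟨-, y2, y3, y4⟩ := hz y (by simp [hy])
      have e1 := r1 _ _ (litLine_le y.1.1) y2
      have e2 := r1 _ _ (litLine_le y.1.2.1) y3
      have e3 := r1 _ _ (litLine_le y.1.2.2) y4
      change k (litLine y.1.1) < n ↔ κ (litLine y.1.1) < n at e1
      change k (litLine y.1.2.1) < n ↔ κ (litLine y.1.2.1) < n at e2
      change k (litLine y.1.2.2) < n ↔ κ (litLine y.1.2.2) < n at e3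
      have := r4 y hy
      omega

theorem zipIdx_facts {n : ℕ} (φ : List (Clause3 ℕ)) (hv : ∀ v ∈ vars3 φ, v < n) :
    (φ.zipIdx.map Prod.snd).Nodup ∧ ∀ z ∈ φ.zipIdx, z.1 ∈ φ ∧ z.2 < φ.length ∧ z.1.1.1 < n ∧
      z.1.2.1.1 < n ∧ z.1.2.2.1 < n := by
  refine ⟨by rw [List.zipIdx_map_snd]; exact List.nodup_range', fun z hz => ?_⟩
  obtain ⟨c, j⟩ := z
  obtain ⟨h1, h2⟩ := List.mem_zipIdx' hz
  have hc : c ∈ φ := h2 ▸ List.getElem_mem h1
  exact ⟨hc, h1, hv _ (List.mem_flatMap.2 ⟨c, hc, by simp⟩),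
    hv _ (List.mem_flatMap.2 ⟨c, hc, by simp⟩), hv _ (List.mem_flatMap.2 ⟨c, hc, by simp⟩)⟩

theorem route_sound {n : ℕ} (φ : List (Clause3 ℕ)) (hv : ∀ v ∈ vars3 φ, v < n)
    (h : Route n φ) : Sat3 φ := by
  obtain ⟨κ, κ', h0, t1, t2, h, t3, t4⟩ := h
  set m := φ.length with hm
  have hn := lines_nodup n m
  simp only [mainEvs, seq_append] at h
  obtain ⟨k1, s1, k2, s2, s3⟩ := h
  obtain ⟨z1, z2⟩ := zipIdx_facts φ hv
  have hp : ∀ t j, 2 ≤ t → ∀ P ∈ pairEvs n, (t, j) ∉ P := fun t j ht P hP => by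
    obtain ⟨i, -, rfl⟩ := List.mem_map.1 hP
    simp; omega
  obtain ⟨r1, r2⟩ := blocks_sound (n := n) (m := m) φ.zipIdx z1 (fun z hz => (z2 z hz).2)
    (s1.bij h0) s2 fun z hz => by
      have hj := (z2 z hz).2.1
      have hT : ∀ t, 2 ≤ t → t ≤ 7 → (t, z.2) ∈ lines n m := fun t a b =>
        (mem_lines n m _ _).2 (Or.inr ⟨a, b, hj⟩)
      refine ⟨fun t a b => ?_, fun t a b => ?_, ?_⟩
      · have e1 := t2 _ (hT t a b)
        have e2 := t3 _ (hT t a b)
        rw [mem_kind, length_kind] at e1 e2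
        rw [s1.untouched (hT t a b) (hp t _ a), ← s3.untouched (hT t a b) (hp t _ a)]
        omega
      · have e1 := t1 _ (hT t (by omega) b)
        rw [List.mem_append, mem_kind, mem_kind, List.length_append, length_kind,
          length_kind] at e1
        rw [s1.untouched (hT t (by omega) b) (hp t _ (by omega))]
        omega
      · have e1 := t4 _ (hT 5 (by omega) (by omega))
        rw [List.mem_append, mem_kind, mem_kind, List.length_append, length_kind,
          length_kind] at e1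
        rw [← s3.untouched (hT 5 (by omega) (by omega)) (hp 5 _ (by omega))]
        omega
  have hX : ∀ i < n, k1 (0, i) < n ∨ k1 (1, i) < n := fun i hi => by
    have hm0 : (0, i) ∈ lines n m := (mem_lines n m _ _).2 (Or.inl ⟨by omega, hi⟩)
    obtain ⟨⟨t, j⟩, -, ⟨hb, hj⟩, e⟩ := s3.closed hn (s2.bij (s1.bij h0))
      (fun a => a.1 ≤ 1 ∧ a.2 = i) (fun P hP a ha b hb hU => by
        obtain ⟨j, -, rfl⟩ := List.mem_map.1 hP
        simp only [List.mem_cons, List.not_mem_nil, or_false] at ha hb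
        rcases ha with rfl | rfl <;> rcases hb with rfl | rfl <;> simp_all) hm0 ⟨by omega, rfl⟩
    have e1 := t3 _ hm0
    rw [mem_kind, length_kind] at e1
    obtain rfl : j = i := hj
    have e2 := r1 t j hb hi
    have e3 : κ' (0, j) < n := e1.2 ⟨rfl, hi⟩
    simp only at hb
    obtain rfl | rfl : t = 0 ∨ t = 1 := by omega
    · omega
    · omega
  have lit : ∀ l : ℕ × Bool, l.1 < n → n ≤ k1 (litLine l) → decide (k1 (1, l.1) < n) = l.2 := by
    rintro ⟨v, b⟩ hl h
    have := hX v hl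
    cases b
    · simpa [litLine] using h
    · simp only [litLine, if_true] at h
      simp only [decide_eq_true_eq]
      omega
  refine ⟨fun i => decide (k1 (1, i) < n), fun c hc => ?_⟩
  obtain ⟨j, hj, rfl⟩ := List.getElem_of_mem hc
  have hz : (φ[j], j) ∈ φ.zipIdx := by simp [List.mem_zipIdx_iff_getElem?]
  obtain ⟨-, -, y1, y2, y3⟩ := z2 _ hz
  rcases r2 _ hz with h | h | h
  · exact Or.inl (lit _ y1 h)
  · exact Or.inr (Or.inl (lit _ y2 h))
  · exact Or.inr (Or.inr (lit _ y3 h))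

/-- Exchange the two lines of the variables in `is` that are true. -/
def flipLn (a : ℕ → Bool) (is : List ℕ) (x : Ln) : Ln :=
  if x.1 ≤ 1 ∧ x.2 ∈ is ∧ a x.2 = true then (1 - x.1, x.2) else x

theorem seq_flip {n m : ℕ} (a : ℕ → Bool) (is : List ℕ) (hnd : is.Nodup) (hi : ∀ i ∈ is, i < n)
    {κ : Ln → ℕ} (h0 : Bij (lines n m) κ) :
    Seq (lines n m) (is.map (fun i => [(0, i), (1, i)])) κ (κ ∘ flipLn a is) := by
  induction is generalizing κ with
  | nil => funext x; simp [flipLn]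
  | cons i is ih =>
    rw [List.nodup_cons] at hnd
    have hV : ∀ t ≤ 1, (t, i) ∈ lines n m := fun t ht =>
      (mem_lines n m _ _).2 (Or.inl ⟨ht, hi i (by simp)⟩)
    by_cases ha : a i = true
    · have s := Step.swap (P := [(0, i), (1, i)]) h0 (hV 0 (by omega)) (hV 1 le_rfl) (by simp)
        (by simp)
      refine ⟨_, s, ?_⟩
      convert ih hnd.2 (fun j hj => hi j (by simp [hj])) s.1 using 1
      funext ⟨t, j⟩
      simp only [Function.comp, flipLn, List.mem_cons, Equiv.swap_apply_def]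
      congr 1
      by_cases hj : j = i
      · subst hj
        obtain rfl | rfl | ht : t = 0 ∨ t = 1 ∨ 2 ≤ t := by omega
        · simp [ha, hnd.1]
        · simp [ha, hnd.1]
        · simp [show ¬ t ≤ 1 by omega, show t ≠ 0 by omega, show t ≠ 1 by omega]
      · simp only [hj, false_or]
        split_ifs <;> simp_all
    · refine ⟨_, Step.refl h0, ?_⟩
      convert ih hnd.2 (fun j hj => hi j (by simp [hj])) h0 using 2
      funext ⟨t, j⟩
      simp only [flipLn, List.mem_cons]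
      by_cases hj : j = i
      · subst hj; simp [ha]
      · simp [hj]

/-- The class of a colour. -/
def cls (n m x : ℕ) : ℕ := if x < n then 0 else if x < n + m then 1 else 2

theorem block_complete {n m : ℕ} (z : Clause3 ℕ × ℕ) (hj : z.2 < m) (h1 : z.1.1.1 < n)
    (h2 : z.1.2.1.1 < n) (h3 : z.1.2.2.1 < n) {κ : Ln → ℕ} (h0 : Bij (lines n m) κ)
    (g : ℕ → ℕ) (a1 : g (κ (2, z.2)) = 1) (a2 : ∀ t, 3 ≤ t → t ≤ 7 → g (κ (t, z.2)) = 2)
    (a3 : g (κ (litLine z.1.1)) = 2 ∨ g (κ (litLine z.1.2.1)) = 2 ∨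
      g (κ (litLine z.1.2.2)) = 2) :
    ∃ κ', Seq (lines n m) (block z) κ κ' ∧ ∀ x, g (κ' x) =
      if x = (2, z.2) then 2 else if x = (5, z.2) then 1 else g (κ x) := by
  obtain ⟨⟨l1, l2, l3⟩, j⟩ := z
  simp only at hj h1 h2 h3 a1 a2 a3 ⊢
  have hL : ∀ l : ℕ × Bool, l.1 < n → litLine l ∈ lines n m := fun l hl =>
    (mem_lines n m _ _).2 (Or.inl ⟨litLine_le l, hl⟩)
  have hT : ∀ t, 2 ≤ t → t ≤ 7 → (t, j) ∈ lines n m := fun t a b =>
    (mem_lines n m _ _).2 (Or.inr ⟨a, b, hj⟩)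
  have hne : ∀ t l, 2 ≤ t → litLine l ≠ (t, j) := fun t l ht e => by
    have := litLine_le l
    rw [e] at this
    simp only at this
    omega
  have b3 := a2 3 (by omega) (by omega)
  have b4 := a2 4 (by omega) (by omega)
  have b5 := a2 5 (by omega) (by omega)
  have b6 := a2 6 (by omega) (by omega)
  have b7 := a2 7 (by omega) (by omega)
  rcases a3 with a3 | a3 | a3
  · have s1 := Step.swap (P := [(2, j), litLine l1]) h0 (hT 2 (by omega) (by omega)) (hL l1 h1)
      (by simp) (by simp)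
    have s2 := Step.swap (P := [(5, j), litLine l1]) s1.1 (hT 5 (by omega) (by omega)) (hL l1 h1)
      (by simp) (by simp)
    refine ⟨_, ⟨_, Step.refl h0, _, s1, _, s2, _, Step.refl s2.1, _, Step.refl s2.1, _,
      Step.refl s2.1, _, Step.refl s2.1, _, Step.refl s2.1, rfl⟩, fun x => ?_⟩
    have n2 := hne 2 l1 (by omega)
    have n5 := hne 5 l1 (by omega)
    clear s1 s2 hL hT hne a2 h0
    generalize litLine l1 = L at *
    simp only [Function.comp, Equiv.swap_apply_def]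
    split_ifs <;> simp_all
  · have s0 := Step.swap (P := [(2, j), (3, j), (4, j)]) h0 (hT 2 (by omega) (by omega))
      (hT 3 (by omega) (by omega)) (by simp) (by simp)
    have s1 := Step.swap (P := [(3, j), litLine l2]) s0.1 (hT 3 (by omega) (by omega)) (hL l2 h2)
      (by simp) (by simp)
    have s2 := Step.swap (P := [(6, j), litLine l2]) s1.1 (hT 6 (by omega) (by omega)) (hL l2 h2)
      (by simp) (by simp)
    have s3 := Step.swap (P := [(5, j), (6, j), (7, j)]) s2.1 (hT 5 (by omega) (by omega))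
      (hT 6 (by omega) (by omega)) (by simp) (by simp)
    refine ⟨_, ⟨_, s0, _, Step.refl s0.1, _, Step.refl s0.1, _, s1, _, s2, _,
      Step.refl s2.1, _, Step.refl s2.1, _, s3, rfl⟩, fun x => ?_⟩
    have n2 := hne 2 l2 (by omega)
    have n3 := hne 3 l2 (by omega)
    have n5 := hne 5 l2 (by omega)
    have n6 := hne 6 l2 (by omega)
    clear s0 s1 s2 s3 hL hT hne a2 h0
    generalize litLine l2 = L at *
    simp only [Function.comp, Equiv.swap_apply_def]
    split_ifs <;> simp_all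
  · have s0 := Step.swap (P := [(2, j), (3, j), (4, j)]) h0 (hT 2 (by omega) (by omega))
      (hT 4 (by omega) (by omega)) (by simp) (by simp)
    have s1 := Step.swap (P := [(4, j), litLine l3]) s0.1 (hT 4 (by omega) (by omega)) (hL l3 h3)
      (by simp) (by simp)
    have s2 := Step.swap (P := [(7, j), litLine l3]) s1.1 (hT 7 (by omega) (by omega)) (hL l3 h3)
      (by simp) (by simp)
    have s3 := Step.swap (P := [(5, j), (6, j), (7, j)]) s2.1 (hT 5 (by omega) (by omega))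
      (hT 7 (by omega) (by omega)) (by simp) (by simp)
    refine ⟨_, ⟨_, s0, _, Step.refl s0.1, _, Step.refl s0.1, _, Step.refl s0.1, _,
      Step.refl s0.1, _, s1, _, s2, _, s3, rfl⟩, fun x => ?_⟩
    have n2 := hne 2 l3 (by omega)
    have n3 := hne 4 l3 (by omega)
    have n5 := hne 5 l3 (by omega)
    have n6 := hne 7 l3 (by omega)
    clear s0 s1 s2 s3 hL hT hne a2 h0
    generalize litLine l3 = L at *
    simp only [Function.comp, Equiv.swap_apply_def]
    split_ifs <;> simp_all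

theorem blocks_complete {n m : ℕ} (zs : List (Clause3 ℕ × ℕ)) (hnd : (zs.map Prod.snd).Nodup)
    (hz : ∀ z ∈ zs, z.2 < m ∧ z.1.1.1 < n ∧ z.1.2.1.1 < n ∧ z.1.2.2.1 < n)
    {κ : Ln → ℕ} (h0 : Bij (lines n m) κ) (g : ℕ → ℕ)
    (a : ∀ z ∈ zs, g (κ (2, z.2)) = 1 ∧ (∀ t, 3 ≤ t → t ≤ 7 → g (κ (t, z.2)) = 2) ∧
      (g (κ (litLine z.1.1)) = 2 ∨ g (κ (litLine z.1.2.1)) = 2 ∨ g (κ (litLine z.1.2.2)) = 2)) :
    ∃ κ', Seq (lines n m) (zs.flatMap block) κ κ' ∧ ∀ t j, g (κ' (t, j)) =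
      if t = 2 ∧ j ∈ zs.map Prod.snd then 2 else if t = 5 ∧ j ∈ zs.map Prod.snd then 1
      else g (κ (t, j)) := by
  induction zs generalizing κ with
  | nil => exact ⟨κ, rfl, by simp⟩
  | cons z zs ih =>
    rw [List.map_cons, List.nodup_cons] at hnd
    have hne : ∀ y ∈ zs, y.2 ≠ z.2 := fun y hy e => hnd.1 (e ▸ List.mem_map_of_mem hy)
    obtain ⟨z1, z2, z3, z4⟩ := hz z (by simp)
    obtain ⟨a1, a2, a3⟩ := a z (by simp)
    obtain ⟨k, s1, e1⟩ := block_complete z z1 z2 z3 z4 h0 g a1 a2 a3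
    have hl : ∀ l, g (k (litLine l)) = g (κ (litLine l)) := fun l => by
      have := litLine_le l
      rw [e1, if_neg, if_neg] <;> (intro e; rw [e] at this; simp at this)
    obtain ⟨k', s2, e2⟩ := ih hnd.2 (fun y hy => hz y (by simp [hy])) (s1.bij h0) fun y hy => by
      obtain ⟨b1, b2, b3⟩ := a y (by simp [hy])
      have := hne y hy
      refine ⟨by rw [e1]; simp [this, b1], fun t b c => ?_, by rw [hl, hl, hl]; exact b3⟩
      rw [e1]; simp [this, b2 t b c]
    refine ⟨k', by rw [List.flatMap_cons, seq_append]; exact ⟨k, s1, s2⟩, fun t j => ?_⟩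
    rw [e2, e1]
    have := hnd.1
    simp only [List.map_cons, List.mem_cons, Prod.mk.injEq]
    by_cases hj : j = z.2
    · subst hj; simp [this]
    · simp only [hj, false_or, and_false, if_false]

theorem route_complete {n : ℕ} (φ : List (Clause3 ℕ)) (hv : ∀ v ∈ vars3 φ, v < n)
    (h : Sat3 φ) : Route n φ := by
  obtain ⟨a, ha⟩ := h
  set m := φ.length with hm
  obtain ⟨κ, h0, t1, t2⟩ := exists_bij_tests (lines_nodup n m) (P := kind 0 n) (Q := kind 2 m)
    (kinds_nodup (by omega) _ _) (by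
      rintro ⟨t, i⟩ hx
      rw [List.mem_append, mem_kind, mem_kind] at hx
      rw [mem_lines]; omega)
  obtain ⟨z1, z2⟩ := zipIdx_facts φ hv
  have c0 : ∀ t i, (t, i) ∈ lines n m → cls n m (κ (t, i)) =
      if t = 0 then 0 else if t = 2 then 1 else 2 := fun t i hx => by
    have e1 := t1 _ hx
    have e2 := t2 _ hx
    rw [List.mem_append, mem_kind, mem_kind, List.length_append, length_kind, length_kind] at e1
    rw [mem_kind, length_kind] at e2
    rw [mem_lines] at hx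
    unfold cls
    split_ifs <;> omega
  have s1 := seq_flip (m := m) a (List.range n) List.nodup_range (by simp) h0
  have lit : ∀ l : ℕ × Bool, l.1 < n → a l.1 = l.2 →
      cls n m ((κ ∘ flipLn a (List.range n)) (litLine l)) = 2 := by
    rintro ⟨v, b⟩ hl e
    simp only at hl e
    cases b <;> simp [litLine, flipLn, e, hl, c0 1 v ((mem_lines _ _ _ _).2 (by omega))]
  obtain ⟨k2, s2, e2⟩ := blocks_complete (n := n) (m := m) φ.zipIdx z1 (fun z hz => (z2 z hz).2)
    (s1.bij h0) (cls n m) fun z hz => by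
      obtain ⟨y0, y1, y2, y3, y4⟩ := z2 z hz
      refine ⟨?_, fun t b c => ?_, ?_⟩
      · simp [flipLn, c0 2 z.2 ((mem_lines _ _ _ _).2 (by omega))]
      · simp [flipLn, show ¬ t ≤ 1 by omega, c0 t z.2 ((mem_lines _ _ _ _).2 (by omega)),
          show t ≠ 0 by omega, show t ≠ 2 by omega]
      · rcases ha _ y0 with h | h | h
        · exact Or.inl (lit _ y2 h)
        · exact Or.inr (Or.inl (lit _ y3 h))
        · exact Or.inr (Or.inr (lit _ y4 h))
  have s3 := seq_flip (m := m) a (List.range n) List.nodup_range (by simp) (s2.bij (s1.bij h0))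
  have c3 : ∀ t i, (t, i) ∈ lines n m → cls n m ((k2 ∘ flipLn a (List.range n)) (t, i)) =
      if t = 0 then 0 else if t = 5 then 1 else 2 := fun t i hx => by
    have hx' := (mem_lines _ _ _ _).1 hx
    rw [List.zipIdx_map_snd] at e2
    by_cases ht : t ≤ 1
    · have hi : i < n := by omega
      by_cases hai : a i = true
      · simp only [Function.comp, flipLn, ht, hai, List.mem_range, hi, and_self, if_true, e2,
          show 1 - t ≠ 2 by omega, show 1 - t ≠ 5 by omega, false_and, if_false,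
          show 1 - t ≤ 1 by omega, show 1 - (1 - t) = t by omega, c0 t i hx]
        split_ifs <;> omega
      · simp only [Function.comp, flipLn, hai, and_false, if_false, e2, Bool.false_eq_true,
          show t ≠ 2 by omega, show t ≠ 5 by omega, false_and, c0 t i hx]
    · have hi : i ∈ List.range' 0 m := by simp; omega
      simp only [Function.comp, flipLn, ht, false_and, if_false, e2, ← hm, hi, and_true,
        c0 t i hx]
      split_ifs <;> omega
  refine ⟨κ, _, h0, t1, t2, by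
    simp only [mainEvs, seq_append]; exact ⟨_, s1, _, s2, s3⟩, ?_, ?_⟩
  · rintro ⟨t, i⟩ hx
    have := c3 t i hx
    rw [mem_kind, length_kind]
    rw [mem_lines] at hx
    unfold cls at this
    split_ifs at this <;> omega
  · rintro ⟨t, i⟩ hx
    have := c3 t i hx
    rw [List.mem_append, mem_kind, mem_kind, List.length_append, length_kind, length_kind]
    rw [mem_lines] at hx
    unfold cls at this
    split_ifs at this <;> omega

end Pool.Agent.MP_07a0c6_lc

end

-- part MP_07a0c6_lc.Bip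
section

/-! NP-hardness on bipartite graphs. -/

namespace Pool.Agent.MP_07a0c6_lc

open Pool.Agent.Lib.Cx N68a2faeb N793a5b8e

/-- Weights of the parts of a set, for a partition given by a key. -/
theorem wt_facts {W : Type} (c : W → ℕ) (D : Finset W) (g : W → ℕ) (N : ℕ)
    (hg : ∀ d ∈ D, g d < N) : ∃ wt : ℕ → ℕ, ∑ j ∈ Finset.range N, wt j = ∑ d ∈ D, c d ∧
      (∀ d ∈ D, c d ≤ wt (g d)) ∧
      ∀ d ∈ D, ∀ e ∈ D, d ≠ e → g d = g e → c d + c e ≤ wt (g d) := by
  classical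
  refine ⟨fun j => ∑ d ∈ D with g d = j, c d,
    Finset.sum_fiberwise_of_maps_to (fun d hd => Finset.mem_range.2 (hg d hd)) c, ?_, ?_⟩
  · intro d hd
    exact Finset.single_le_sum (f := c) (fun _ _ => Nat.zero_le _) (by simp [hd])
  · intro d hd e he hne h
    rw [← Finset.sum_pair hne]
    refine Finset.sum_le_sum_of_subset fun x hx => ?_
    simp only [Finset.mem_insert, Finset.mem_singleton] at hx
    rcases hx with rfl | rfl <;> simp [*]

theorem tight_sum (n : ℕ) (a b : ℕ → ℕ) (h1 : ∀ i < n, a i ≤ b i)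
    (h2 : ∑ i ∈ Finset.range n, b i ≤ ∑ i ∈ Finset.range n, a i) : ∀ i < n, b i = a i := by
  have h3 : ∀ i ∈ Finset.range n, a i ≤ b i := fun i hi => h1 i (Finset.mem_range.1 hi)
  have := (Finset.sum_eq_sum_iff_of_le h3).1 (le_antisymm (Finset.sum_le_sum h3) h2)
  exact fun i hi => (this i (Finset.mem_range.2 hi)).symm

/-- The edges, from the side of literals and pendants to the other side. -/
def bipRel (φ : List (Clause3 ℕ)) (a b : ℕ × ℕ) : Prop :=
  (a.1 ≤ 1 ∧ (b.1 = 2 ∨ b.1 = 3) ∧ a.2 = b.2) ∨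
  (a.1 ≤ 1 ∧ b.1 = 4 ∧ ∃ c ∈ (φ[b.2]?).toList, (a.2, decide (a.1 = 0)) ∈ [c.1, c.2.1, c.2.2]) ∨
  ((a.1 ≤ 1 ∨ a.1 = 6) ∧ b.1 = 5)

def bipH (φ : List (Clause3 ℕ)) : SimpleGraph (ℕ × ℕ) := SimpleGraph.fromRel (bipRel φ)

def bipS (φ : List (Clause3 ℕ)) : List (ℕ × ℕ) :=
  (List.range 7 ×ˢ List.range (3 * φ.length + 2)).filter (fun a =>
    a.1 ≤ 3 ∨ (a.1 = 4 ∧ a.2 < φ.length) ∨ (a.1 = 5 ∧ a.2 = 0) ∨ (a.1 = 6 ∧ a.2 ≤ 1))

theorem bipS_nodup (φ : List (Clause3 ℕ)) : (bipS φ).Nodup :=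
  (List.nodup_range.product List.nodup_range).filter _

theorem mem_bipS (φ : List (Clause3 ℕ)) (t i : ℕ) : (t, i) ∈ bipS φ ↔
    (t ≤ 3 ∧ i < 3 * φ.length + 2) ∨ (t = 4 ∧ i < φ.length) ∨ (t = 5 ∧ i = 0) ∨
      (t = 6 ∧ i ≤ 1) := by
  simp only [bipS, List.mem_filter, List.mem_product, List.mem_range, decide_eq_true_eq]
  omega

theorem bipH_adj (φ : List (Clause3 ℕ)) (a b : ℕ × ℕ) :
    (bipH φ).Adj a b ↔ bipRel φ a b ∨ bipRel φ b a := by
  simp only [bipH, SimpleGraph.fromRel_adj, and_iff_right_iff_imp]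
  rintro h rfl
  unfold bipRel at h
  omega

theorem bip_bipartite (φ : List (Clause3 ℕ)) : ((bipH φ).comap (bipS φ).get).IsBipartite := by
  have := (SimpleGraph.Coloring.mk (G := (bipH φ).comap (bipS φ).get) (α := Bool)
    (fun i => decide (((bipS φ).get i).1 ≤ 1 ∨ ((bipS φ).get i).1 = 6)) (fun {i j} hij => by
      rw [SimpleGraph.comap_adj, bipH_adj] at hij
      unfold bipRel at hij
      simp only [ne_eq, decide_eq_decide]
      omega)).colorable
  simpa using this

theorem bip_complete (φ : List (Clause3 ℕ)) (hv : ∀ v ∈ vars3 φ, v < 3 * φ.length)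
    (h : Sat3 φ) : SolOn (bipH φ) (bipS φ) (3 * φ.length + 4) := by
  obtain ⟨a, ha⟩ := h
  let lit : ℕ → ℕ × ℕ := fun i => (if a i = true then 0 else 1, i)
  have hl1 : ∀ i, (lit i).1 ≤ 1 := fun i => by simp only [lit]; split_ifs <;> omega
  have hinj : Function.Injective lit := fun i j h => congrArg Prod.snd h
  refine ⟨fun w => if w.1 ≤ 1 then 1 else if w.1 = 5 then 2 else 0,
    insert (5, 0) ((Finset.range (3 * φ.length + 2)).image lit), ?_, ?_, ?_, ?_⟩
  · intro u _ v _ h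
    rw [bipH_adj] at h
    unfold bipRel at h
    simp only
    split_ifs <;> omega
  · intro d hd
    rcases Finset.mem_insert.1 hd with rfl | hd
    · simp [mem_bipS]
    · obtain ⟨i, hi, rfl⟩ := Finset.mem_image.1 hd
      have := hl1 i
      refine ⟨?_, by simp [this]⟩
      rw [show lit i = ((lit i).1, i) from rfl, mem_bipS]
      exact Or.inl ⟨by omega, Finset.mem_range.1 hi⟩
  · rintro ⟨t, i⟩ hv' hD
    rw [mem_bipS] at hv'
    have hz : (t ≤ 1 ∨ t = 6) → ∃ d ∈ insert (5, 0) ((Finset.range (3 * φ.length + 2)).image lit),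
        (bipH φ).Adj (t, i) d ∧ (if t ≤ 1 then 1 else if t = 5 then 2 else 0) <
          (if d.1 ≤ 1 then 1 else if d.1 = 5 then 2 else 0) := fun ht =>
      ⟨(5, 0), Finset.mem_insert_self _ _, (bipH_adj _ _ _).2 (Or.inl (Or.inr (Or.inr ⟨ht, rfl⟩))),
        by simp only; split_ifs <;> omega⟩
    rcases hv' with ⟨h1, h2⟩ | ⟨rfl, h2⟩ | ⟨rfl, rfl⟩ | ⟨rfl, h2⟩
    · by_cases ht : t ≤ 1
      · exact hz (Or.inl ht)
      · refine ⟨lit i, Finset.mem_insert_of_mem (Finset.mem_image_of_mem _ (by simpa using h2)),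
          (bipH_adj _ _ _).2 (Or.inr (Or.inl ⟨hl1 i, by simp only; omega, rfl⟩)), ?_⟩
        simp only [hl1 i, if_true]
        split_ifs <;> omega
    · obtain ⟨l, hl, e⟩ : ∃ l ∈ [φ[i].1, φ[i].2.1, φ[i].2.2], a l.1 = l.2 := by
        rcases ha _ (List.getElem_mem h2) with h | h | h
        · exact ⟨_, by simp, h⟩
        · exact ⟨_, by simp, h⟩
        · exact ⟨_, by simp, h⟩
      have hlt : l.1 < 3 * φ.length := hv _ (List.mem_flatMap.2 ⟨φ[i], List.getElem_mem h2, by
        simp only [List.mem_cons, List.not_mem_nil, or_false] at hl ⊢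
        rcases hl with rfl | rfl | rfl <;> simp⟩)
      refine ⟨lit l.1, Finset.mem_insert_of_mem (Finset.mem_image_of_mem _ (by simp; omega)),
        (bipH_adj _ _ _).2 (Or.inr (Or.inr (Or.inl ⟨hl1 _, rfl, φ[i], by simp [h2], ?_⟩))),
        by simp [hl1]⟩
      have : ((lit l.1).2, decide ((lit l.1).1 = 0)) = l := by
        obtain ⟨v, b⟩ := l
        simp only at e
        cases b <;> simp [lit, e]
      rw [this]; exact hl
    · exact absurd (Finset.mem_insert_self _ _) hD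
    · exact hz (Or.inr rfl)
  · rw [Finset.sum_insert (by
      simp only [Finset.mem_image, not_exists, not_and]
      intro i _ h
      have := hl1 i
      rw [h] at this
      simp at this), Finset.sum_image (fun a _ b _ h => hinj h)]
    simp [hl1]
    omega

theorem bip_sound (φ : List (Clause3 ℕ)) (h : SolOn (bipH φ) (bipS φ) (3 * φ.length + 4)) :
    Sat3 φ := by
  classical
  obtain ⟨c, D, h1, h2, h3, h4⟩ := h
  set n := 3 * φ.length + 2 with hn
  obtain ⟨wt, w1, w2, w3⟩ := wt_facts c D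
    (fun d => if d.1 ≤ 3 then d.2 else if d.1 = 4 then n else n + 1) (n + 2) (by
      rintro ⟨t, i⟩ hd
      have := (mem_bipS φ t i).1 (h2 _ hd).1
      simp only
      split_ifs <;> omega)
  rw [Finset.sum_range_succ, Finset.sum_range_succ] at w1
  have hpos : ∀ d ∈ D, 1 ≤ c d := fun d hd => Nat.pos_of_ne_zero (h2 d hd).2
  have hy : ∀ t, t = 2 ∨ t = 3 → ∀ i < n, (t, i) ∉ D → ∃ s ≤ 1, (s, i) ∈ D := by
    intro t ht i hi hD
    obtain ⟨⟨s, j⟩, hd, e, -⟩ := h3 (t, i) ((mem_bipS φ t i).2 (by omega)) hD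
    rw [bipH_adj] at e
    unfold bipRel at e
    obtain ⟨e1, rfl⟩ : s ≤ 1 ∧ j = i := by simp only at e; omega
    exact ⟨s, e1, hd⟩
  have hv : ∀ t ≤ 3, ∀ i, (t, i) ∈ D → c (t, i) ≤ wt i := fun t ht i hd => by
    simpa [ht] using w2 _ hd
  have hv2 : ∀ t ≤ 3, ∀ s ≤ 3, t ≠ s → ∀ i, (t, i) ∈ D → (s, i) ∈ D → 2 ≤ wt i :=
    fun t ht s hs hne i hd hd' => by
      have := w3 _ hd _ hd' (by simpa using hne) (by simp [ht, hs])
      have a1 := hpos _ hd
      have a2 := hpos _ hd'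
      simp only [ht, if_true] at this
      omega
  have lower : ∀ i < n, 1 ≤ wt i := by
    intro i hi
    by_cases hD : (2, i) ∈ D
    · exact (hpos _ hD).trans (hv 2 (by omega) i hD)
    · obtain ⟨s, hs, hd⟩ := hy 2 (by omega) i hi hD
      exact (hpos _ hd).trans (hv s (by omega) i hd)
  have hzone : 2 ≤ wt (n + 1) := by
    by_cases hz : ((5, 0) : ℕ × ℕ) ∈ D
    · have a1 := w2 _ hz
      simp only [show ¬ (5 ≤ 3) by omega, show ¬ (5 = 4) by omega, if_false] at a1
      by_contra hlt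
      have a2 := hpos _ hz
      have big : ∀ i < n, 2 ≤ wt i := by
        intro i hi
        have lit : ∀ s ≤ 1, (s, i) ∈ D → 2 ≤ wt i := by
          intro s hs hd
          have b1 := h1 _ (h2 _ hd).1 _ (h2 _ hz).1
            ((bipH_adj _ _ _).2 (Or.inl (Or.inr (Or.inr ⟨Or.inl hs, rfl⟩))))
          have b2 := hv s (by omega) i hd
          have b3 := hpos _ hd
          omega
        by_cases hD : (2, i) ∈ D
        · by_cases hD' : (3, i) ∈ D
          · exact hv2 2 (by omega) 3 (by omega) (by omega) i hD hD'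
          · obtain ⟨s, hs, hd⟩ := hy 3 (by omega) i hi hD'
            exact lit s hs hd
        · obtain ⟨s, hs, hd⟩ := hy 2 (by omega) i hi hD
          exact lit s hs hd
      have := Finset.sum_le_sum (s := Finset.range n) (f := fun _ => 2) (g := wt)
        (fun i hi => big i (Finset.mem_range.1 hi))
      simp only [Finset.sum_const, Finset.card_range, smul_eq_mul] at this
      omega
    · have hp : ∀ i ≤ 1, ((6, i) : ℕ × ℕ) ∈ D := by
        intro i hi
        by_contra hD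
        obtain ⟨⟨s, j⟩, hd, e, -⟩ := h3 (6, i) ((mem_bipS φ 6 i).2 (by omega)) hD
        rw [bipH_adj] at e
        unfold bipRel at e
        have e1 : s = 5 := by simp only at e; omega
        have e2 := (mem_bipS φ s j).1 (h2 _ hd).1
        obtain rfl : j = 0 := by omega
        exact hz (e1 ▸ hd)
      have := w3 _ (hp 0 (by omega)) _ (hp 1 (by omega)) (by simp) (by simp)
      have a1 := hpos _ (hp 0 (by omega))
      have a2 := hpos _ (hp 1 (by omega))
      simp only [show ¬ (6 ≤ 3) by omega, show ¬ (6 = 4) by omega, if_false] at this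
      omega
  have hlow := Finset.sum_le_sum (s := Finset.range n) (f := fun _ => 1) (g := wt)
    (fun i hi => lower i (Finset.mem_range.1 hi))
  have tight := tight_sum n (fun _ => 1) wt lower (by simp; omega)
  simp only [Finset.sum_const, Finset.card_range, smul_eq_mul] at hlow
  refine ⟨fun i => decide ((0, i) ∈ D), fun cl hcl => ?_⟩
  obtain ⟨j, hj, rfl⟩ := List.getElem_of_mem hcl
  have hD : ((4, j) : ℕ × ℕ) ∉ D := by
    intro hd
    have a1 := w2 _ hd
    have a2 := hpos _ hd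
    simp only [show ¬ (4 ≤ 3) by omega, if_false, if_true] at a1
    omega
  obtain ⟨⟨s, i⟩, hd, e, -⟩ := h3 (4, j) ((mem_bipS φ 4 j).2 (by omega)) hD
  rw [bipH_adj] at e
  unfold bipRel at e
  simp only at e
  obtain ⟨e1, -, cl, e2, e3⟩ : s ≤ 1 ∧ 4 = 4 ∧ ∃ c ∈ (φ[j]?).toList,
      (i, decide (s = 0)) ∈ [c.1, c.2.1, c.2.2] := by
    rcases e with (e | e | e) | (e | e | e) <;> first | omega | exact ⟨e.1, rfl, e.2.2⟩
  obtain rfl : cl = φ[j] := by simpa [hj, eq_comm] using e2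
  have hi : i < n := by have := (mem_bipS φ s i).1 (h2 _ hd).1; omega
  have key : decide ((0, i) ∈ D) = decide (s = 0) := by
    rw [decide_eq_decide]
    constructor
    · intro h0
      by_contra hs
      have := hv2 0 (by omega) s (by omega) (by omega) i h0 hd
      have := tight i hi
      omega
    · rintro rfl; exact hd
  simp only [List.mem_cons, List.not_mem_nil, or_false] at e3
  unfold Clause3.Holds
  rcases e3 with e | e | e <;> rw [← e] <;> simp [key]

theorem bip_hard : HardOn (fun _ => True) (Inst (fun _ G => G.IsBipartite)) := by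
  classical
  refine hardOn_sat3.of_red (fun φ => ((bipS φ).map (fun a => (bipS φ).map
    (fun b => decide ((bipH φ).Adj a b))), 3 * φ.length + 4)) ?_ fun φ hφ => ⟨trivial, ?_⟩
  · simp only [bipH_adj]
    unfold bipS bipRel
    fun_prop
  · have e := adjRows_comap_get (bipH φ) (bipS φ)
    rw [← e, Inst, graphInst_adjRows, upWeight_le_iff, sol_comap_get _ (bipS_nodup φ)]
    exact ⟨fun h => ⟨bip_bipartite φ, by omega, bip_complete φ hφ h⟩, fun h => bip_sound φ h.2.2⟩

theorem bip_complete_NP : IsCompleteFor NP (UCW (fun _ G => G.IsBipartite)) := by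
  rw [ucw_eq]
  exact bip_hard.isComplete (fun _ _ => Iff.rfl) bipartite_mem_NP

end Pool.Agent.MP_07a0c6_lc

end

-- part MP_07a0c6_lc.IntGraph
section

/-! The interval graph of a schedule of shuffles with four tests. -/

namespace Pool.Agent.MP_07a0c6_lc

open Pool.Agent.Lib.Cx Function

/-- Vertices: kind (0 piece of a line, 1 small vertex of a test, 2 long vertex of a block),
line, start time, end time. -/
abbrev Vx : Type := ℕ × Ln × ℕ × ℕ

def lo (v : Vx) : ℕ := if v.1 = 1 then 2 * v.2.2.1 + 1 else 2 * v.2.2.1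

def hi (v : Vx) : ℕ := if v.1 = 1 then 2 * v.2.2.1 + 1 else 2 * v.2.2.2

def IsPiece (ev : ℕ → List Ln) (T : ℕ) (l : Ln) (s e : ℕ) : Prop :=
  s ≤ e ∧ (s = 0 ∨ l ∈ ev (s - 1)) ∧ (e = T ∨ l ∈ ev e) ∧ ∀ t < e, s ≤ t → l ∉ ev t

open Classical in
noncomputable def verts (Ls : List Ln) (ev : ℕ → List Ln) (T : ℕ) (α β : ℕ → ℕ) : List Vx :=
  (List.range 3 ×ˢ (Ls ×ˢ (List.range (T + 1) ×ˢ List.range (T + 1)))).filter (fun v =>
    (v.1 = 0 ∧ IsPiece ev T v.2.1 v.2.2.1 v.2.2.2) ∨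
    (v.1 = 1 ∧ v.2.2.2 = v.2.2.1 ∧ v.2.1 ∈ ev v.2.2.1 ∧ ∃ i < 4, v.2.2.1 = β i) ∨
    (v.1 = 2 ∧ v.2.1 = (0, 0) ∧ ∃ i < 5, v.2.2.1 = α i ∧ v.2.2.2 = β i))

def intH : SimpleGraph Vx where
  Adj a b := a ≠ b ∧ lo a ≤ hi b ∧ lo b ≤ hi a
  symm := ⟨fun _ _ h => ⟨h.1.symm, h.2.2, h.2.1⟩⟩
  loopless := ⟨fun _ h => h.1 rfl⟩

theorem intH_adj (a b : Vx) : intH.Adj a b ↔ a ≠ b ∧ lo a ≤ hi b ∧ lo b ≤ hi a := Iff.rfl

structure Layout (Ls : List Ln) (ev : ℕ → List Ln) (T : ℕ) (α β : ℕ → ℕ) : Prop where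
  nodup : Ls.Nodup
  zero : (0, 0) ∈ Ls
  a0 : α 0 = 0
  bT : β 4 = T
  next : ∀ i < 4, α (i + 1) = β i + 1
  long : ∀ i < 5, α i + 4 * Ls.length ≤ β i
  sweep : ∀ i < 5, ∀ l ∈ Ls, ∀ a, (α i ≤ a ∧ a + Ls.length ≤ α i + 2 * Ls.length) ∨
    (β i ≤ a + 2 * Ls.length ∧ a + Ls.length ≤ β i) → ∃ t, a ≤ t ∧ t < a + Ls.length ∧ l ∈ ev t
  test : ∀ i < 4, (ev (β i)).Nodup ∧ ev (β i) ⊆ Ls ∧ 2 ≤ (ev (β i)).length ∧
    (ev (β i)).length + 1 ≤ Ls.length

def Good (Ls : List Ln) (ev : ℕ → List Ln) (T : ℕ) (β : ℕ → ℕ) (col : ℕ → Ln → ℕ) : Prop :=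
  (∀ t ≤ T, Bij Ls (col t)) ∧ (∀ t < T, ∀ l ∈ Ls, l ∉ ev t → col (t + 1) l = col t l) ∧
    ∀ i < 4, Test Ls (ev (β i)) (col (β i))

def budget (Ls : List Ln) (ev : ℕ → List Ln) (β : ℕ → ℕ) : ℕ :=
  5 * Ls.length + ((ev (β 0)).length - 1) + ((ev (β 1)).length - 1) + ((ev (β 2)).length - 1) +
    ((ev (β 3)).length - 1)

variable {Ls : List Ln} {ev : ℕ → List Ln} {T : ℕ} {α β : ℕ → ℕ}

theorem verts_nodup (h : Ls.Nodup) : (verts Ls ev T α β).Nodup :=
  (List.nodup_range.product (h.product (List.nodup_range.product List.nodup_range))).filter _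

theorem mem_verts (k : ℕ) (l : Ln) (s e : ℕ) : (k, l, s, e) ∈ verts Ls ev T α β ↔
    l ∈ Ls ∧ s ≤ T ∧ e ≤ T ∧ ((k = 0 ∧ IsPiece ev T l s e) ∨
      (k = 1 ∧ e = s ∧ l ∈ ev s ∧ ∃ i < 4, s = β i) ∨
      (k = 2 ∧ l = (0, 0) ∧ ∃ i < 5, s = α i ∧ e = β i)) := by
  simp only [verts, List.mem_filter, List.mem_product, List.mem_range, decide_eq_true_eq,
    Nat.lt_succ_iff]
  constructor
  · rintro ⟨⟨-, h1, h2, h3⟩, h⟩; exact ⟨h1, h2, h3, h⟩
  · rintro ⟨h1, h2, h3, h⟩; exact ⟨⟨by omega, h1, h2, h3⟩, h⟩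

theorem piece_exists (ev : ℕ → List Ln) {T t : ℕ} (l : Ln) (ht : t ≤ T) :
    ∃ s e, IsPiece ev T l s e ∧ s ≤ t ∧ t ≤ e ∧ e ≤ T := by
  classical
  have h1 : ∃ s ≤ t, (s = 0 ∨ l ∈ ev (s - 1)) ∧ ∀ u < t, s ≤ u → l ∉ ev u := by
    clear ht
    induction t with
    | zero => exact ⟨0, le_rfl, Or.inl rfl, by simp⟩
    | succ t ih =>
      by_cases h : l ∈ ev t
      · exact ⟨t + 1, le_rfl, Or.inr h, fun u a b => by omega⟩
      · obtain ⟨s, a, b, c⟩ := ih
        refine ⟨s, by omega, b, fun u d e => ?_⟩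
        by_cases hu : u = t
        · rw [hu]; exact h
        · exact c u (by omega) e
  have h2 : ∃ e, t ≤ e ∧ (e = T ∨ l ∈ ev e) := ⟨T, ht, Or.inl rfl⟩
  obtain ⟨s, a, b, c⟩ := h1
  have h3 := Nat.find_spec h2
  refine ⟨s, Nat.find h2, ⟨by omega, b, h3.2, fun u d e hu => ?_⟩, a, h3.1,
    Nat.find_min' h2 ⟨ht, Or.inl rfl⟩⟩
  by_cases h : u < t
  · exact c u h e hu
  · exact Nat.find_min h2 d ⟨by omega, Or.inr hu⟩

theorem IsPiece.unique {l : Ln} {s e s' e' : ℕ} (h : IsPiece ev T l s e)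
    (h' : IsPiece ev T l s' e') (he : e ≤ T) (he' : e' ≤ T) (a : s ≤ e') (b : s' ≤ e) :
    s = s' ∧ e = e' := by
  obtain ⟨a1, a2, a3, a4⟩ := h
  obtain ⟨b1, b2, b3, b4⟩ := h'
  constructor
  · rcases lt_trichotomy s s' with c | c | c
    · exact absurd (b2.resolve_left (by omega)) (a4 _ (by omega) (by omega))
    · exact c
    · exact absurd (a2.resolve_left (by omega)) (b4 _ (by omega) (by omega))
  · rcases lt_trichotomy e e' with c | c | c
    · exact absurd (a3.resolve_left (by omega)) (b4 _ (by omega) (by omega))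
    · exact c
    · exact absurd (b3.resolve_left (by omega)) (a4 _ (by omega) (by omega))

theorem IsPiece.cut {l : Ln} {s e t : ℕ} (h : IsPiece ev T l s e) (ht : l ∈ ev t) :
    t < s ∨ e ≤ t := by
  by_contra hc
  exact h.2.2.2 t (by omega) (by omega) ht

theorem Layout.order (h : Layout Ls ev T α β) :
    (∀ i < 5, ∀ j < 5, i < j → β i < α j) ∧ (∀ i < 5, β i ≤ T) ∧ ∀ s ≤ T, ∃ i < 5, α i ≤ s ∧ s ≤ β i := by
  have n0 := h.next 0 (by omega)
  have n1 := h.next 1 (by omega)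
  have n2 := h.next 2 (by omega)
  have n3 := h.next 3 (by omega)
  have l0 := h.long 0 (by omega)
  have l1 := h.long 1 (by omega)
  have l2 := h.long 2 (by omega)
  have l3 := h.long 3 (by omega)
  have l4 := h.long 4 (by omega)
  have a0 := h.a0
  have bT := h.bT
  simp only [Nat.reduceAdd, zero_add] at n0 n1 n2 n3
  refine ⟨fun i hi j hj hij => ?_, fun i hi => ?_, fun s hs => ?_⟩
  · interval_cases j <;> interval_cases i <;> omega
  · interval_cases i <;> omega
  · by_cases c0 : s ≤ β 0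
    · exact ⟨0, by omega, by omega, c0⟩
    by_cases c1 : s ≤ β 1
    · exact ⟨1, by omega, by omega, c1⟩
    by_cases c2 : s ≤ β 2
    · exact ⟨2, by omega, by omega, c2⟩
    by_cases c3 : s ≤ β 3
    · exact ⟨3, by omega, by omega, c3⟩
    exact ⟨4, by omega, by omega, by omega⟩

theorem sum_toFinset_le {W : Type} [DecidableEq W] (l : List W) (f : W → ℕ) :
    ∑ x ∈ l.toFinset, f x ≤ (l.map f).sum := by
  induction l with
  | nil => simp
  | cons a l ih =>
    rw [List.toFinset_cons, List.map_cons, List.sum_cons]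
    by_cases h : a ∈ l.toFinset
    · rw [Finset.insert_eq_of_mem h]; omega
    · rw [Finset.sum_insert h]; omega

theorem graph_complete (h : Layout Ls ev T α β) {col : ℕ → Ln → ℕ} (hc : Good Ls ev T β col) :
    SolOn intH (verts Ls ev T α β) (budget Ls ev β) := by
  obtain ⟨g1, g2, g3⟩ := hc
  obtain ⟨o1, o2, o3⟩ := h.order
  have const : ∀ {l s e}, l ∈ Ls → e ≤ T → IsPiece ev T l s e → ∀ t, s ≤ t → t ≤ e →
      col t l = col s l := by
    intro l s e hl he hp t a b
    induction t, a using Nat.le_induction with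
    | base => rfl
    | succ t a ih => rw [g2 t (by omega) l hl (hp.2.2.2 t (by omega) a), ih (by omega)]
  have top : ∀ i, ∃ l, i < 4 → l ∈ Ls ∧ l ∈ ev (β i) ∧ col (β i) l = (ev (β i)).length - 1 := by
    intro i
    by_cases hi : i < 4
    · have := h.test i hi
      obtain ⟨l, a, b⟩ := (g1 (β i) (o2 i (by omega))).surj h.nodup
        (x := (ev (β i)).length - 1) (by omega)
      exact ⟨l, fun _ => ⟨a, (g3 i hi l a).1 (by omega), b⟩⟩
    · exact ⟨(0, 0), fun h => absurd h hi⟩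
  choose tp htp using top
  let z : ℕ → Vx := fun i => (2, (0, 0), α i, β i)
  let y : ℕ → Vx := fun i => (1, tp i, β i, β i)
  let D : Finset Vx := [z 0, z 1, z 2, z 3, z 4, y 0, y 1, y 2, y 3].toFinset
  have hz : ∀ i < 5, z i ∈ D := fun i hi => by interval_cases i <;> simp [D]
  have hy : ∀ i < 4, y i ∈ D := fun i hi => by interval_cases i <;> simp [D]
  have hD : ∀ d ∈ D, (∃ i < 5, d = z i) ∨ ∃ i < 4, d = y i := by
    intro d hd
    simp only [D, List.mem_toFinset, List.mem_cons, List.not_mem_nil, or_false] at hd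
    rcases hd with rfl | rfl | rfl | rfl | rfl | rfl | rfl | rfl | rfl
    exacts [Or.inl ⟨0, by omega, rfl⟩, Or.inl ⟨1, by omega, rfl⟩, Or.inl ⟨2, by omega, rfl⟩,
      Or.inl ⟨3, by omega, rfl⟩, Or.inl ⟨4, by omega, rfl⟩, Or.inr ⟨0, by omega, rfl⟩,
      Or.inr ⟨1, by omega, rfl⟩, Or.inr ⟨2, by omega, rfl⟩, Or.inr ⟨3, by omega, rfl⟩]
  have hK : 0 < Ls.length := List.length_pos_of_mem h.zero
  refine ⟨fun v => if v.1 = 2 then Ls.length else col v.2.2.1 v.2.1, D, ?_, ?_, ?_, ?_⟩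
  · rintro ⟨k, l, s, e⟩ hu ⟨k', l', s', e'⟩ hv ⟨hne, a1, a2⟩
    rw [mem_verts] at hu hv
    obtain ⟨u1, u2, u3, hu⟩ := hu
    obtain ⟨v1, v2, v3, hv⟩ := hv
    have b1 := (g1 s u2).2 l u1
    have b2 := (g1 s' v2).2 l' v1
    simp only [lo, hi] at a1 a2
    rcases hu with ⟨rfl, hu⟩ | ⟨rfl, rfl, hu, i, hi, rfl⟩ | ⟨rfl, rfl, i, hi, rfl, rfl⟩ <;>
    rcases hv with ⟨rfl, hv⟩ | ⟨rfl, rfl, hv, j, hj, rfl⟩ | ⟨rfl, rfl, j, hj, rfl, rfl⟩ <;>
    simp only [Nat.reduceEqDiff, if_true, if_false] at a1 a2 ⊢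
    · intro e1
      have c1 := hu.1
      have c2 := hv.1
      rw [← const u1 u3 hu (max s s') (by omega) (by omega),
        ← const v1 v3 hv (max s s') (by omega) (by omega)] at e1
      obtain rfl := (g1 _ (by omega)).1 l u1 l' v1 e1
      obtain ⟨rfl, rfl⟩ := hu.unique hv u3 v3 (by omega) (by omega)
      exact hne rfl
    · intro e1
      rw [← const u1 u3 hu (β j) (by omega) (by omega)] at e1
      obtain rfl := (g1 _ v2).1 l u1 l' v1 e1
      have := hu.cut hv
      omega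
    · omega
    · intro e1
      rw [← const v1 v3 hv (β i) (by omega) (by omega)] at e1
      obtain rfl := (g1 _ u2).1 l u1 l' v1 e1
      have := hv.cut hu
      omega
    · intro e1
      have e2 : β j = β i := by omega
      rw [e2] at e1 hne
      obtain rfl := (g1 _ u2).1 l u1 l' v1 e1
      exact hne rfl
    · omega
    · omega
    · omega
    · exfalso
      rcases lt_trichotomy i j with c | rfl | c
      · have := o1 i hi j hj c; omega
      · exact hne rfl
      · have := o1 j hj i hi c; omega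
  · intro d hd
    rcases hD d hd with ⟨i, hi, rfl⟩ | ⟨i, hi, rfl⟩
    · have := h.long i hi
      have := o2 i hi
      exact ⟨(mem_verts _ _ _ _).2 ⟨h.zero, by omega, by omega,
        Or.inr (Or.inr ⟨rfl, rfl, i, hi, rfl, rfl⟩)⟩, by simp only [z, if_true]; omega⟩
    · obtain ⟨a, b, c⟩ := htp i hi
      have := o2 i (by omega)
      have := h.test i hi
      exact ⟨(mem_verts _ _ _ _).2 ⟨a, by omega, by omega,
        Or.inr (Or.inl ⟨rfl, rfl, b, i, hi, rfl⟩)⟩, by simp only [y, Nat.reduceEqDiff, if_false]; omega⟩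
  · rintro ⟨k, l, s, e⟩ hu hnD
    rw [mem_verts] at hu
    obtain ⟨u1, u2, u3, hu⟩ := hu
    rcases hu with ⟨rfl, hu⟩ | ⟨rfl, rfl, hu, i, hi, rfl⟩ | ⟨rfl, rfl, i, hi, rfl, rfl⟩
    · obtain ⟨i, hi, a, b⟩ := o3 s u2
      have := hu.1
      refine ⟨z i, hz i hi, ⟨by simp [z], ?_, ?_⟩, ?_⟩
      · simp only [lo, MP_07a0c6_lc.hi, z, Nat.reduceEqDiff, if_false]; omega
      · simp only [lo, MP_07a0c6_lc.hi, z, Nat.reduceEqDiff, if_false]; omega
      · simpa [z] using (g1 s u2).2 l u1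
    · obtain ⟨a, b, c⟩ := htp i hi
      have hne : l ≠ tp i := fun e => hnD (e ▸ hy i hi)
      refine ⟨y i, hy i hi, ⟨by simp [y, hne], by simp [lo, MP_07a0c6_lc.hi, y],
        by simp [lo, MP_07a0c6_lc.hi, y]⟩, ?_⟩
      have d1 := (g3 i hi l u1).2 hu
      have d2 : col (β i) l ≠ col (β i) (tp i) := fun e => hne ((g1 _ u2).1 _ u1 _ a e)
      simp only [y, Nat.reduceEqDiff, if_false]
      omega
    · exact absurd (hz i hi) hnD
  · refine (sum_toFinset_le _ _).trans (le_of_eq ?_)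
    simp only [z, y, budget, List.map_cons, List.map_nil, List.sum_cons, List.sum_nil, if_true,
      Nat.reduceEqDiff, if_false, (htp 0 (by omega)).2.2, (htp 1 (by omega)).2.2,
      (htp 2 (by omega)).2.2, (htp 3 (by omega)).2.2]
    omega

/-- The zone of a vertex: `5 + i` if it meets test `i`, otherwise its block. -/
def zone (β : ℕ → ℕ) (v : Vx) : ℕ :=
  if lo v ≤ 2 * β 0 + 1 ∧ 2 * β 0 + 1 ≤ hi v then 5
  else if lo v ≤ 2 * β 1 + 1 ∧ 2 * β 1 + 1 ≤ hi v then 6
  else if lo v ≤ 2 * β 2 + 1 ∧ 2 * β 2 + 1 ≤ hi v then 7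
  else if lo v ≤ 2 * β 3 + 1 ∧ 2 * β 3 + 1 ≤ hi v then 8
  else if hi v < 2 * β 0 + 1 then 0 else if hi v < 2 * β 1 + 1 then 1
  else if hi v < 2 * β 2 + 1 then 2 else if hi v < 2 * β 3 + 1 then 3 else 4

theorem zone_lt (v : Vx) : zone β v < 9 := by
  unfold zone; split_ifs <;> omega

theorem Layout.lo_le_hi (h : Layout Ls ev T α β) {v : Vx} (hv : v ∈ verts Ls ev T α β) :
    lo v ≤ hi v := by
  obtain ⟨k, l, s, e⟩ := v
  rw [mem_verts] at hv
  rcases hv.2.2.2 with ⟨rfl, hu⟩ | ⟨rfl, rfl, hu, i, hi, rfl⟩ | ⟨rfl, rfl, i, hi, rfl, rfl⟩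
  · simpa [lo, hi] using hu.1
  · simp [lo, MP_07a0c6_lc.hi]
  · have := h.long i hi
    simp only [lo, MP_07a0c6_lc.hi, Nat.reduceEqDiff, if_false]; omega

theorem Layout.two_walls (h : Layout Ls ev T α β) {v : Vx} (hv : v ∈ verts Ls ev T α β) {i j : ℕ}
    (hj : j < 4) (hij : i < j) (a : lo v ≤ 2 * β i + 1) (b : 2 * β j + 1 ≤ hi v) : False := by
  obtain ⟨o1, -, -⟩ := h.order
  obtain ⟨k, l, s, e⟩ := v
  rw [mem_verts] at hv
  have c1 := o1 i (by omega) j (by omega) hij
  have c2 := h.long j (by omega)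
  rcases hv.2.2.2 with ⟨rfl, hu⟩ | ⟨rfl, rfl, hu, i, hi, rfl⟩ | ⟨rfl, rfl, m, hm, rfl, rfl⟩ <;>
    simp only [lo, MP_07a0c6_lc.hi, Nat.reduceEqDiff, if_false, if_true] at a b
  · obtain ⟨t, d1, d2, d3⟩ := h.sweep j (by omega) l hv.1 (α j) (by omega)
    have := hu.cut d3
    omega
  · omega
  · rcases lt_trichotomy m j with c | rfl | c
    · have := o1 m hm j (by omega) c; omega
    · omega
    · have := o1 i (by omega) m hm (by omega); omega

theorem Layout.zone_facts (h : Layout Ls ev T α β) {v : Vx} (hv : v ∈ verts Ls ev T α β) :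
    (∀ i < 4, lo v ≤ 2 * β i + 1 → 2 * β i + 1 ≤ hi v → zone β v = 5 + i) ∧
    (∀ i < 5, 2 * α i ≤ lo v → hi v ≤ 2 * β i → zone β v = i) ∧
    ∀ i < 5, lo v ≤ 2 * β i → 2 * α i ≤ hi v →
      zone β v = i ∨ (1 ≤ i ∧ zone β v = 4 + i) ∨ (i ≤ 3 ∧ zone β v = 5 + i) := by
  have w01 := h.two_walls hv (i := 0) (j := 1) (by omega) (by omega)
  have w12 := h.two_walls hv (i := 1) (j := 2) (by omega) (by omega)
  have w23 := h.two_walls hv (i := 2) (j := 3) (by omega) (by omega)
  have n0 := h.next 0 (by omega)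
  have n1 := h.next 1 (by omega)
  have n2 := h.next 2 (by omega)
  have n3 := h.next 3 (by omega)
  have l1 := h.long 1 (by omega)
  have l2 := h.long 2 (by omega)
  have l3 := h.long 3 (by omega)
  have l4 := h.long 4 (by omega)
  have lh := h.lo_le_hi hv
  simp only [Nat.reduceAdd, zero_add] at n0 n1 n2 n3
  simp only [imp_false, not_le, imp_iff_not_or] at w01 w12 w23
  unfold zone
  refine ⟨fun i hi a b => ?_, fun i hi a b => ?_, fun i hi a b => ?_⟩ <;> interval_cases i <;>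
    split_ifs <;> omega

theorem exists_big {ι : Type} (L : List ι) (hL : L.Nodup) (f : ι → ℕ)
    (hf : ∀ a ∈ L, ∀ b ∈ L, f a = f b → a = b) (hne : L ≠ []) :
    ∃ a ∈ L, L.length ≤ f a + 1 := by
  classical
  by_contra hc
  push Not at hc
  have h1 : L.toFinset.image f ⊆ Finset.range (L.length - 1) := fun x hx => by
    obtain ⟨a, ha, rfl⟩ := Finset.mem_image.1 hx
    have := hc a (List.mem_toFinset.1 ha)
    exact Finset.mem_range.2 (by omega)
  have h2 := Finset.card_le_card h1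
  rw [Finset.card_image_of_injOn (fun a ha b hb e =>
    hf a (by simpa using ha) b (by simpa using hb) e), List.toFinset_card_of_nodup hL,
    Finset.card_range] at h2
  have := List.length_pos_of_ne_nil hne
  omega

theorem graph_sound (h : Layout Ls ev T α β)
    (hs : SolOn intH (verts Ls ev T α β) (budget Ls ev β)) : ∃ col, Good Ls ev T β col := by
  classical
  obtain ⟨c, D, h1, h2, h3, h4⟩ := hs
  obtain ⟨o1, o2, -⟩ := h.order
  obtain ⟨wt, w1, w2, w3⟩ := wt_facts c D (zone β) 9 (fun d _ => zone_lt d)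
  set K := Ls.length with hK
  have hKpos : 0 < K := List.length_pos_of_mem h.zero
  have hpos : ∀ d ∈ D, 1 ≤ c d := fun d hd => Nat.pos_of_ne_zero (h2 d hd).2
  have hp : ∀ (t : ℕ) (l : Ln), ∃ se : ℕ × ℕ, t ≤ T →
      IsPiece ev T l se.1 se.2 ∧ se.1 ≤ t ∧ t ≤ se.2 ∧ se.2 ≤ T := fun t l => by
    by_cases ht : t ≤ T
    · obtain ⟨s, e, a⟩ := piece_exists ev l ht
      exact ⟨(s, e), fun _ => a⟩
    · exact ⟨(0, 0), fun h => absurd h ht⟩
  choose pc hpc using hp
  let P : ℕ → Ln → Vx := fun t l => (0, l, pc t l)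
  have hPm : ∀ t ≤ T, ∀ l ∈ Ls, P t l ∈ verts Ls ev T α β := fun t ht l hl => by
    obtain ⟨a, b, c, d⟩ := hpc t l ht
    exact (mem_verts _ _ _ _).2 ⟨hl, by omega, d, Or.inl ⟨rfl, a⟩⟩
  have hlo : ∀ t l, lo (P t l) = 2 * (pc t l).1 := fun _ _ => rfl
  have hhi : ∀ t l, hi (P t l) = 2 * (pc t l).2 := fun _ _ => rfl
  have inj : ∀ t ≤ T, ∀ a ∈ Ls, ∀ b ∈ Ls, c (P t a) = c (P t b) → a = b := by
    intro t ht a ha b hb e
    by_contra hne
    have x := hpc t a ht
    have y := hpc t b ht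
    exact h1 _ (hPm t ht a ha) _ (hPm t ht b hb)
      ⟨by simp [P, hne], by rw [hlo, hhi]; omega, by rw [hlo, hhi]; omega⟩ e
  -- small vertices
  let y : ℕ → Ln → Vx := fun i l => (1, l, β i, β i)
  have hym : ∀ i < 4, ∀ l ∈ ev (β i), y i l ∈ verts Ls ev T α β := fun i hi l hl =>
    (mem_verts _ _ _ _).2 ⟨(h.test i hi).2.1 hl, o2 i (by omega), o2 i (by omega),
      Or.inr (Or.inl ⟨rfl, rfl, hl, i, hi, rfl⟩)⟩
  have hylo : ∀ i l, lo (y i l) = 2 * β i + 1 := fun _ _ => rfl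
  have hyhi : ∀ i l, hi (y i l) = 2 * β i + 1 := fun _ _ => rfl
  have yinj : ∀ i < 4, ∀ a ∈ ev (β i), ∀ b ∈ ev (β i), c (y i a) = c (y i b) → a = b := by
    intro i hi a ha b hb e
    by_contra hne
    exact h1 _ (hym i hi a ha) _ (hym i hi b hb)
      ⟨by simp [y, hne], by rw [hylo, hyhi], by rw [hylo, hyhi]⟩ e
  have ydom : ∀ i < 4, ∀ l ∈ ev (β i), (y i l ∈ D ∧ c (y i l) ≤ wt (5 + i)) ∨
      c (y i l) < wt (5 + i) := by
    intro i hi l hl
    by_cases hd : y i l ∈ D
    · have := w2 _ hd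
      rw [(h.zone_facts (hym i hi l hl)).1 i hi (by rw [hylo]) (by rw [hyhi])] at this
      exact Or.inl ⟨hd, this⟩
    · obtain ⟨d, hd, ⟨-, a, b⟩, e⟩ := h3 _ (hym i hi l hl) hd
      have := w2 _ hd
      rw [(h.zone_facts (h2 d hd).1).1 i hi b a] at this
      exact Or.inr (by omega)
  have ybig : ∀ i < 4, ∃ l ∈ ev (β i), (ev (β i)).length ≤ c (y i l) + 1 := fun i hi =>
    exists_big _ (h.test i hi).1 _ (yinj i hi) (by
      have := (h.test i hi).2.2.1
      intro e; rw [e] at this; simp at this)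
  have ylow : ∀ i < 4, (ev (β i)).length ≤ wt (5 + i) + 1 := fun i hi => by
    obtain ⟨l, hl, e⟩ := ybig i hi
    have := ydom i hi l hl
    omega
  -- middle pieces
  have mid : ∀ i < 5, ∀ l ∈ Ls, (P (α i + 2 * K) l ∈ D ∧ c (P (α i + 2 * K) l) ≤ wt i) ∨
      ∃ d ∈ D, zone β d = i ∧ c (P (α i + 2 * K) l) < c d := by
    intro i hi l hl
    have l1 := h.long i hi
    have l2 := o2 i hi
    obtain ⟨p1, p2, p3, p4⟩ := hpc (α i + 2 * K) l (by omega)
    obtain ⟨t1, a1, a2, a3⟩ := h.sweep i hi l hl (α i + K) (by omega)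
    obtain ⟨t2, b1, b2, b3⟩ := h.sweep i hi l hl (β i - 2 * K) (by omega)
    have c1 := p1.cut a3
    have c2 := p1.cut b3
    have hm := hPm (α i + 2 * K) (by omega) l hl
    by_cases hd : P (α i + 2 * K) l ∈ D
    · have := w2 _ hd
      rw [(h.zone_facts hm).2.1 i hi (by rw [hlo]; omega) (by rw [hhi]; omega)] at this
      exact Or.inl ⟨hd, this⟩
    · obtain ⟨d, hd, ⟨-, a, b⟩, e⟩ := h3 _ hm hd
      refine Or.inr ⟨d, hd, ?_, e⟩
      rw [hlo] at a
      rw [hhi] at b
      have hdm := (h2 d hd).1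
      refine (h.zone_facts hdm).2.1 i hi ?_ ?_ <;>
      · obtain ⟨k, l', s, e⟩ := d
        rw [mem_verts] at hdm
        rcases hdm.2.2.2 with ⟨rfl, hu⟩ | ⟨rfl, rfl, hu, j, hj, rfl⟩ |
          ⟨rfl, rfl, j, hj, rfl, rfl⟩ <;>
        simp only [lo, MP_07a0c6_lc.hi, Nat.reduceEqDiff, if_false, if_true] at a b ⊢
        · obtain ⟨t3, d1, d2, d3⟩ := h.sweep i hi l' hdm.1 (α i) (by omega)
          obtain ⟨t4, f1, f2, f3⟩ := h.sweep i hi l' hdm.1 (β i - K) (by omega)
          have := hu.cut d3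
          have := hu.cut f3
          omega
        · omega
        · rcases lt_trichotomy i j with c | rfl | c
          · have := o1 i hi j hj c; omega
          · omega
          · have := o1 j hj i hi c; omega
  let z : ℕ → Vx := fun i => (2, (0, 0), α i, β i)
  have hzm : ∀ i < 5, z i ∈ verts Ls ev T α β := fun i hi => by
    have := h.long i hi
    have := o2 i hi
    exact (mem_verts _ _ _ _).2 ⟨h.zero, by omega, by omega,
      Or.inr (Or.inr ⟨rfl, rfl, i, hi, rfl, rfl⟩)⟩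
  have zlow : ∀ i < 5, K ≤ wt i + 1 ∧ ((∃ d ∈ D, zone β d = i ∧ K ≤ c d) ∨
      (1 ≤ i ∧ K + 1 ≤ wt (4 + i)) ∨ (i ≤ 3 ∧ K + 1 ≤ wt (5 + i))) := by
    intro i hi
    have l1 := h.long i hi
    have l2 := o2 i hi
    have hμ : α i + 2 * K ≤ T := by omega
    constructor
    · obtain ⟨l, hl, e⟩ := exists_big Ls h.nodup _ (inj _ hμ) (List.ne_nil_of_mem h.zero)
      rcases mid i hi l hl with a | ⟨d, hd, a, b⟩
      · omega
      · have := w2 d hd
        rw [a] at this
        omega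
    · by_cases hbig : ∃ l ∈ Ls, K ≤ c (P (α i + 2 * K) l)
      · obtain ⟨l, hl, e⟩ := hbig
        rcases mid i hi l hl with a | ⟨d, hd, a, b⟩
        · obtain ⟨p1, p2, p3, p4⟩ := hpc (α i + 2 * K) l hμ
          obtain ⟨t1, a1, a2, a3⟩ := h.sweep i hi l hl (α i + K) (by omega)
          obtain ⟨t2, b1, b2, b3⟩ := h.sweep i hi l hl (β i - 2 * K) (by omega)
          have c1 := p1.cut a3
          have c2 := p1.cut b3
          exact Or.inl ⟨_, a.1, (h.zone_facts (hPm _ hμ l hl)).2.1 i hi (by rw [hlo]; omega)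
            (by rw [hhi]; omega), e⟩
        · exact Or.inl ⟨d, hd, a, by omega⟩
      · push Not at hbig
        have hb : Bij Ls (fun l => c (P (α i + 2 * K) l)) := ⟨inj _ hμ, hbig⟩
        have hzc : K ≤ c (z i) := by
          by_contra hlt
          obtain ⟨l, hl, e⟩ := hb.surj h.nodup (x := c (z i)) (by omega)
          have x := hpc (α i + 2 * K) l hμ
          refine h1 _ (hPm _ hμ l hl) _ (hzm i hi) ⟨by simp [P, z], ?_, ?_⟩ e
          · rw [hlo]; change _ ≤ 2 * β i; omega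
          · rw [hhi]; change 2 * α i ≤ _; omega
        by_cases hd : z i ∈ D
        · exact Or.inl ⟨_, hd, (h.zone_facts (hzm i hi)).2.1 i hi le_rfl le_rfl, hzc⟩
        · obtain ⟨d, hd, ⟨-, a, b⟩, e⟩ := h3 _ (hzm i hi) hd
          have := w2 d hd
          rcases (h.zone_facts (h2 d hd).1).2.2 i hi b a with f | f | f
          · exact Or.inl ⟨d, hd, f, by omega⟩
          · rw [f.2] at this; exact Or.inr (Or.inl ⟨f.1, by omega⟩)
          · rw [f.2] at this; exact Or.inr (Or.inr ⟨f.1, by omega⟩)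
  have zlow' : ∀ i < 5, K ≤ wt i + 1 ∧ (K ≤ wt i ∨
      (1 ≤ i ∧ K + 1 ≤ wt (4 + i)) ∨ (i ≤ 3 ∧ K + 1 ≤ wt (5 + i))) := fun i hi => by
    obtain ⟨a, b⟩ := zlow i hi
    refine ⟨a, b.imp_left ?_⟩
    rintro ⟨d, hd, e, f⟩
    have := w2 d hd
    rw [e] at this
    omega
  have tight : (∀ i < 5, wt i = K) ∧ ∀ i < 4, wt (5 + i) + 1 = (ev (β i)).length := by
    have z0 := zlow' 0 (by omega)
    have z1 := zlow' 1 (by omega)
    have z2 := zlow' 2 (by omega)
    have z3 := zlow' 3 (by omega)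
    have z4 := zlow' 4 (by omega)
    have y0 := ylow 0 (by omega)
    have y1 := ylow 1 (by omega)
    have y2 := ylow 2 (by omega)
    have y3 := ylow 3 (by omega)
    have q0 := (h.test 0 (by omega)).2.2
    have q1 := (h.test 1 (by omega)).2.2
    have q2 := (h.test 2 (by omega)).2.2
    have q3 := (h.test 3 (by omega)).2.2
    rw [← w1] at h4
    simp only [Finset.sum_range_succ, Finset.sum_range_zero, budget] at h4
    simp only [Nat.reduceAdd, add_zero] at z0 z1 z2 z3 z4 y0 y1 y2 y3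
    refine ⟨fun i hi => ?_, fun i hi => ?_⟩ <;> interval_cases i <;>
      (try simp only [Nat.reduceAdd, add_zero]) <;> omega
  have wtK : ∀ j < 9, wt j ≤ K := fun j hj => by
    by_cases h5 : j < 5
    · exact (tight.1 j h5).le
    · have a := tight.2 (j - 5) (by omega)
      have b := (h.test (j - 5) (by omega)).2.2.2
      rw [show 5 + (j - 5) = j by omega] at a
      omega
  have yD : ∀ i < 4, ∀ d ∈ D, zone β d = 5 + i → lo d = 2 * β i + 1 := by
    intro i hi d hd e
    obtain ⟨l, hl, a⟩ := ybig i hi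
    have b := tight.2 i hi
    obtain ⟨c1, c2⟩ : y i l ∈ D ∧ c (y i l) ≤ wt (5 + i) := (ydom i hi l hl).resolve_right (by omega)
    by_cases hne : d = y i l
    · rw [hne, hylo]
    · have f := w3 d hd _ c1 hne (by
        rw [e, (h.zone_facts (hym i hi l hl)).1 i hi (by rw [hylo]) (by rw [hyhi])])
      have := hpos d hd
      rw [e] at f
      omega
  have small : ∀ t ≤ T, ∀ l ∈ Ls, c (P t l) < K := by
    intro t ht l hl
    by_contra hge
    have hd : P t l ∈ D := by
      by_contra hd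
      obtain ⟨d, hd, -, e⟩ := h3 _ (hPm t ht l hl) hd
      have := (w2 d hd).trans (wtK _ (zone_lt d))
      omega
    obtain ⟨i, hi⟩ : ∃ i, zone β (P t l) = i := ⟨_, rfl⟩
    have a := w2 _ hd
    rw [hi] at a
    have hi5 : i < 5 := by
      by_contra h5
      have hi9 : i < 9 := hi ▸ zone_lt _
      have a := tight.2 (i - 5) (by omega)
      have b := (h.test (i - 5) (by omega)).2.2.2
      rw [show 5 + (i - 5) = i by omega] at a
      omega
    have uniq : ∀ d ∈ D, zone β d = i → d = P t l := fun d hd' e => by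
      by_contra hne
      have f := w3 d hd' _ hd hne (by rw [e, hi])
      have := hpos d hd'
      have := tight.1 i hi5
      rw [e] at f
      omega
    have l1 := h.long i hi5
    have l2 := o2 i hi5
    have other : ∀ u, α i + K ≤ u → u ≤ α i + 2 * K → P u l = P t l := by
      intro u u1 u2
      obtain ⟨p1, p2, p3, p4⟩ := hpc u l (by omega)
      obtain ⟨t1, a1, a2, a3⟩ := h.sweep i hi5 l hl (α i) (by omega)
      obtain ⟨t2, b1, b2, b3⟩ := h.sweep i hi5 l hl (β i - K) (by omega)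
      have c1 := p1.cut a3
      have c2 := p1.cut b3
      have hm := hPm u (by omega) l hl
      by_cases hd' : P u l ∈ D
      · exact uniq _ hd' ((h.zone_facts hm).2.1 i hi5 (by rw [hlo]; omega) (by rw [hhi]; omega))
      · obtain ⟨d, hd'', ⟨hne, x1, x2⟩, e⟩ := h3 _ hm hd'
        rw [hlo] at x1
        rw [hhi] at x2
        have lh := h.lo_le_hi (h2 d hd'').1
        rcases (h.zone_facts (h2 d hd'').1).2.2 i hi5 (by omega) (by omega) with f | f | f
        · obtain rfl := uniq d hd'' f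
          obtain ⟨q1, q2, q3, q4⟩ := hpc t l ht
          rw [hhi] at x1
          rw [hlo] at x2
          obtain ⟨e1, e2⟩ := p1.unique q1 p4 q4 (by omega) (by omega)
          exact Prod.ext rfl (Prod.ext rfl (Prod.ext e1 e2))
        · exfalso
          obtain ⟨j, rfl⟩ : ∃ j, i = j + 1 := ⟨i - 1, by omega⟩
          have g1 := yD j (by omega) d hd'' (by omega)
          obtain ⟨l', hl', a'⟩ := ybig j (by omega)
          have b' := tight.2 j (by omega)
          obtain ⟨c1', c2'⟩ : y j l' ∈ D ∧ c (y j l') ≤ wt (5 + j) :=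
            (ydom j (by omega) l' hl').resolve_right (by omega)
          by_cases hne' : d = y j l'
          · rw [hne', hyhi] at x1
            have := h.next j (by omega)
            omega
          · have f' := w3 d hd'' _ c1' hne' (by
              rw [f.2, (h.zone_facts (hym j (by omega) l' hl')).1 j (by omega) (by rw [hylo])
                (by rw [hyhi])]; omega)
            have := hpos d hd''
            rw [f.2, show 4 + (j + 1) = 5 + j by omega] at f'
            omega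
        · exfalso
          have g1 := yD i (by omega) d hd'' f.2
          omega
    have e1 := other (α i + K) le_rfl (by omega)
    have e2 := other (α i + 2 * K) (by omega) le_rfl
    have e3 : pc (α i + K) l = pc (α i + 2 * K) l := by
      have := e1.trans e2.symm
      simpa [P] using this
    obtain ⟨p1, p2, p3, p4⟩ := hpc (α i + K) l (by omega)
    obtain ⟨q1, q2, q3, q4⟩ := hpc (α i + 2 * K) l (by omega)
    obtain ⟨t1, a1, a2, a3⟩ := h.sweep i hi5 l hl (α i + K) (by omega)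
    have := p1.cut a3
    rw [← e3] at q3
    omega
  have bij : ∀ t ≤ T, Bij Ls (fun l => c (P t l)) := fun t ht => ⟨inj t ht, small t ht⟩
  have same : ∀ t < T, ∀ l, l ∉ ev t → P (t + 1) l = P t l := by
    intro t ht l hl
    obtain ⟨p1, p2, p3, p4⟩ := hpc t l (by omega)
    obtain ⟨q1, q2, q3, q4⟩ := hpc (t + 1) l (by omega)
    have : t + 1 ≤ (pc t l).2 := by
      by_contra hc
      have e : (pc t l).2 = t := by omega
      have := p1.2.2.1
      rw [e] at this
      exact hl (this.resolve_left (by omega))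
    obtain ⟨e1, e2⟩ := q1.unique p1 q4 p4 (by omega) (by omega)
    exact Prod.ext rfl (Prod.ext rfl (Prod.ext e1 e2))
  refine ⟨fun t l => c (P t l), bij, fun t ht l _ hl => by simp only [same t ht l hl], ?_⟩
  intro i hi
  have hT : β i < T := by
    have := o1 i (by omega) 4 (by omega) hi
    have := h.long 4 (by omega)
    have := h.bT
    omega
  have through : ∀ l ∈ Ls, c (P (β i) l) < (ev (β i)).length → l ∈ ev (β i) := by
    intro l hl hlt
    by_contra hn
    have hb : Bij (ev (β i)) (fun l => c (y i l)) := ⟨yinj i hi, fun a ha => by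
      have := ydom i hi a ha
      have := tight.2 i hi
      simp only
      omega⟩
    obtain ⟨a, ha, e⟩ := hb.surj (h.test i hi).1 hlt
    obtain ⟨p1, p2, p3, p4⟩ := hpc (β i) l hT.le
    obtain ⟨q1, q2, q3, q4⟩ := hpc (β i + 1) l hT
    have e3 : pc (β i + 1) l = pc (β i) l := by simpa [P] using same _ hT l hn
    rw [e3] at q3
    exact h1 _ (hym i hi a ha) _ (hPm _ hT.le l hl)
      ⟨by simp [y, P], by rw [hylo, hhi]; omega, by rw [hyhi, hlo]; omega⟩ e
  intro l hl
  refine ⟨through l hl, fun hm => ?_⟩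
  have hq := (h.test i hi).2.2.2
  have h5 : Finset.range (ev (β i)).length ⊆
      (ev (β i)).toFinset.image (fun l => c (P (β i) l)) := fun x hx => by
    have hx' := Finset.mem_range.1 hx
    obtain ⟨a, ha, e⟩ := (bij _ hT.le).surj h.nodup (x := x) (by omega)
    exact Finset.mem_image.2 ⟨a, List.mem_toFinset.2 (through a ha (by rw [e]; exact hx')), e⟩
  have h6 := Finset.eq_of_subset_of_card_le h5 (by
    refine Finset.card_image_le.trans ?_
    rw [Finset.card_range]; exact List.toFinset_card_le _)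
  have h7 : c (P (β i) l) ∈ Finset.range (ev (β i)).length := by
    rw [h6]; exact Finset.mem_image_of_mem _ (List.mem_toFinset.2 hm)
  exact Finset.mem_range.1 h7

end Pool.Agent.MP_07a0c6_lc

end

-- part MP_07a0c6_lc.Interval
section

/-! Hardness for interval graphs. -/

namespace Pool.Agent.MP_07a0c6_lc

open Pool.Agent.Lib.Cx Function N68a2faeb N793a5b8e

/-- The end of block `i`. -/
def bet (K M i : ℕ) : ℕ :=
  if i = 0 then 4 * K else if i = 1 then 8 * K + 1 else if i = 2 then 12 * K + 2 + M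
  else if i = 3 then 16 * K + 3 + M else 20 * K + 4 + M

/-- The start of block `i`. -/
def alp (K M i : ℕ) : ℕ := if i = 0 then 0 else bet K M (i - 1) + 1

/-- The schedule of shuffles. -/
def sched (Ls : List Ln) (mn : List (List Ln)) (P1 P2 P4 : List Ln) (t : ℕ) : List Ln :=
  if t = 4 * Ls.length then P1 else if t = 8 * Ls.length + 1 then P2
  else if t = 12 * Ls.length + 2 + mn.length then P2
  else if t = 16 * Ls.length + 3 + mn.length then P4
  else if 10 * Ls.length + 2 ≤ t ∧ t < 10 * Ls.length + 2 + mn.length then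
    mn.getD (t - (10 * Ls.length + 2)) []
  else [Ls.getD (t % Ls.length) (0, 0)]

section

variable {Ls : List Ln} {mn : List (List Ln)} {P1 P2 P4 : List Ln}

theorem sched_single {t : ℕ} (h1 : t ≠ 4 * Ls.length) (h2 : t ≠ 8 * Ls.length + 1)
    (h3 : t ≠ 12 * Ls.length + 2 + mn.length) (h4 : t ≠ 16 * Ls.length + 3 + mn.length)
    (h5 : t < 10 * Ls.length + 2 ∨ 10 * Ls.length + 2 + mn.length ≤ t) :
    sched Ls mn P1 P2 P4 t = [Ls.getD (t % Ls.length) (0, 0)] := by
  unfold sched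
  rw [if_neg h1, if_neg h2, if_neg h3, if_neg h4, if_neg (by omega)]

theorem sched_main {t : ℕ} (h : t < mn.length) (hK : 0 < Ls.length) :
    sched Ls mn P1 P2 P4 (10 * Ls.length + 2 + t) = mn.getD t [] := by
  unfold sched
  rw [if_neg (by omega), if_neg (by omega), if_neg (by omega), if_neg (by omega),
    if_pos (by omega), Nat.add_sub_cancel_left]

theorem sched_0 : sched Ls mn P1 P2 P4 (4 * Ls.length) = P1 := by simp [sched]

theorem sched_1 : sched Ls mn P1 P2 P4 (8 * Ls.length + 1) = P2 := by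
  unfold sched
  rw [if_neg (by omega), if_pos rfl]

theorem sched_2 : sched Ls mn P1 P2 P4 (12 * Ls.length + 2 + mn.length) = P2 := by
  unfold sched
  rw [if_neg (by omega), if_neg (by omega), if_pos rfl]

theorem sched_3 : sched Ls mn P1 P2 P4 (16 * Ls.length + 3 + mn.length) = P4 := by
  unfold sched
  rw [if_neg (by omega), if_neg (by omega), if_neg (by omega), if_pos rfl]

theorem exists_residue {K : ℕ} (a j : ℕ) (hj : j < K) : ∃ t, a ≤ t ∧ t < a + K ∧ t % K = j := by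
  have h1 := Nat.mod_lt a (show 0 < K by omega)
  have h2 := Nat.div_add_mod a K
  by_cases h : a % K ≤ j
  · exact ⟨K * (a / K) + j, by omega, by omega, by rw [Nat.mul_add_mod, Nat.mod_eq_of_lt hj]⟩
  · refine ⟨K * (a / K + 1) + j, by rw [mul_add]; omega, by rw [mul_add]; omega, ?_⟩
    rw [Nat.mul_add_mod, Nat.mod_eq_of_lt hj]

theorem sched_layout (hn : Ls.Nodup) (h0 : (0, 0) ∈ Ls)
    (hP : ∀ P ∈ [P1, P2, P4], P.Nodup ∧ P ⊆ Ls ∧ 2 ≤ P.length ∧ P.length + 1 ≤ Ls.length) :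
    Layout Ls (sched Ls mn P1 P2 P4) (20 * Ls.length + 4 + mn.length)
      (alp Ls.length mn.length) (bet Ls.length mn.length) where
  nodup := hn
  zero := h0
  a0 := rfl
  bT := rfl
  next := fun i _ => by simp [alp]
  long := fun i hi => by interval_cases i <;> simp [alp, bet] <;> omega
  sweep := fun i hi l hl a ha => by
    obtain ⟨j, hj, rfl⟩ := List.getElem_of_mem hl
    obtain ⟨t, t1, t2, t3⟩ := exists_residue a j hj
    refine ⟨t, t1, t2, ?_⟩
    have : t ≠ 4 * Ls.length ∧ t ≠ 8 * Ls.length + 1 ∧ t ≠ 12 * Ls.length + 2 + mn.length ∧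
        t ≠ 16 * Ls.length + 3 + mn.length ∧
        (t < 10 * Ls.length + 2 ∨ 10 * Ls.length + 2 + mn.length ≤ t) := by
      interval_cases i <;>
        simp only [alp, bet, Nat.reduceEqDiff, if_true, if_false, Nat.reduceSub] at ha <;> omega
    rw [sched_single this.1 this.2.1 this.2.2.1 this.2.2.2.1 this.2.2.2.2, t3]
    simp [hj]
  test := fun i hi => by
    interval_cases i <;> simp only [bet, Nat.reduceEqDiff, if_true, if_false]
    · rw [sched_0]; exact hP _ (by simp)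
    · rw [sched_1]; exact hP _ (by simp)
    · rw [sched_2]; exact hP _ (by simp)
    · rw [sched_3]; exact hP _ (by simp)

theorem test_move {ev : ℕ → List Ln} {T : ℕ} {col : ℕ → Ln → ℕ} (hn : Ls.Nodup)
    (g1 : ∀ t ≤ T, Bij Ls (col t))
    (g2 : ∀ t < T, ∀ l ∈ Ls, l ∉ ev t → col (t + 1) l = col t l) (Q : List Ln) {a b : ℕ}
    (hab : a ≤ b) (hb : b ≤ T) (h : ∀ t, a ≤ t → t < b → ev t ⊆ Q ∨ ∃ x, ev t = [x]) :
    Test Ls Q (col a) ↔ Test Ls Q (col b) := by
  induction b, hab using Nat.le_induction with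
  | base => rfl
  | succ b hab ih =>
    rw [ih (by omega) (fun t c d => h t c (by omega))]
    have s : Step Ls (ev b) (col b) (col (b + 1)) := ⟨g1 _ hb, g2 b (by omega)⟩
    have b0 := g1 b (by omega)
    rcases h b hab (by omega) with c | ⟨x, c⟩
    · exact ⟨s.test hn b0 c, (s.symm b0).test hn s.1 c⟩
    · rw [c] at s
      unfold Test
      exact forall₂_congr fun l hl => by rw [s.single hn b0 hl]

theorem good_iff (hn : Ls.Nodup) (hK : 0 < Ls.length) (h1 : P2 ⊆ P1) (h4 : P2 ⊆ P4) :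
    (∃ col, Good Ls (sched Ls mn P1 P2 P4) (20 * Ls.length + 4 + mn.length)
      (bet Ls.length mn.length) col) ↔
    ∃ κ κ', Bij Ls κ ∧ Test Ls P1 κ ∧ Test Ls P2 κ ∧ Seq Ls mn κ κ' ∧ Test Ls P2 κ' ∧
      Test Ls P4 κ' := by
  constructor
  · rintro ⟨col, g1, g2, g3⟩
    have t0 := g3 0 (by omega)
    have t1 := g3 1 (by omega)
    have t2 := g3 2 (by omega)
    have t3 := g3 3 (by omega)
    simp only [bet, Nat.reduceEqDiff, if_true, if_false, sched_0, sched_1, sched_2,
      sched_3] at t0 t1 t2 t3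
    refine ⟨col (10 * Ls.length + 2), col (10 * Ls.length + 2 + mn.length), g1 _ (by omega),
      (test_move hn g1 g2 P1 (by omega) (by omega) fun t a b => ?_).1 t0,
      (test_move hn g1 g2 P2 (by omega) (by omega) fun t a b => ?_).1 t1,
      seq_iff_time.2 ⟨fun t => col (10 * Ls.length + 2 + t), rfl, rfl, fun t ht => ?_⟩,
      (test_move hn g1 g2 P2 (by omega) (by omega) fun t a b => ?_).2 t2,
      (test_move hn g1 g2 P4 (by omega) (by omega) fun t a b => ?_).2 t3⟩
    · by_cases c0 : t = 4 * Ls.length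
      · rw [c0, sched_0]; exact Or.inl fun _ h => h
      by_cases c1 : t = 8 * Ls.length + 1
      · rw [c1, sched_1]; exact Or.inl h1
      exact Or.inr ⟨_, sched_single c0 c1 (by omega) (by omega) (by omega)⟩
    · by_cases c1 : t = 8 * Ls.length + 1
      · rw [c1, sched_1]; exact Or.inl fun _ h => h
      exact Or.inr ⟨_, sched_single (by omega) c1 (by omega) (by omega) (by omega)⟩
    · rw [← sched_main (P1 := P1) (P2 := P2) (P4 := P4) ht hK]
      exact ⟨g1 _ (by omega), g2 _ (by omega)⟩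
    · exact Or.inr ⟨_, sched_single (by omega) (by omega) (by omega) (by omega) (by omega)⟩
    · by_cases c1 : t = 12 * Ls.length + 2 + mn.length
      · rw [c1, sched_2]; exact Or.inl h4
      exact Or.inr ⟨_, sched_single (by omega) (by omega) c1 (by omega) (by omega)⟩
  · rintro ⟨κ, κ', b0, t0, t1, s, t2, t3⟩
    obtain ⟨cs, rfl, rfl, hs⟩ := seq_iff_time.1 s
    have hb : ∀ t ≤ mn.length, Bij Ls (cs t) := fun t ht => by
      cases t with
      | zero => exact b0
      | succ t => exact (hs t (by omega)).1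
    refine ⟨fun t => cs (min (t - (10 * Ls.length + 2)) mn.length), fun t _ => hb _ (by omega),
      fun t _ l hl hn => ?_, fun i hi => ?_⟩
    · by_cases c : 10 * Ls.length + 2 ≤ t ∧ t < 10 * Ls.length + 2 + mn.length
      · obtain ⟨u, rfl⟩ : ∃ u, t = 10 * Ls.length + 2 + u := ⟨t - (10 * Ls.length + 2), by omega⟩
        have hu : u < mn.length := by omega
        rw [sched_main hu hK] at hn
        simp only
        rw [show min (10 * Ls.length + 2 + u + 1 - (10 * Ls.length + 2)) mn.length = u + 1 by omega,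
          show min (10 * Ls.length + 2 + u - (10 * Ls.length + 2)) mn.length = u by omega]
        exact (hs u hu).2 l hl hn
      · simp only
        rw [show min (t + 1 - (10 * Ls.length + 2)) mn.length =
          min (t - (10 * Ls.length + 2)) mn.length by omega]
    · interval_cases i <;> simp only [bet, Nat.reduceEqDiff, if_true, if_false, sched_0, sched_1,
        sched_2, sched_3]
      · rw [show min (4 * Ls.length - (10 * Ls.length + 2)) mn.length = 0 by omega]; exact t0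
      · rw [show min (8 * Ls.length + 1 - (10 * Ls.length + 2)) mn.length = 0 by omega]; exact t1
      · rw [show min (12 * Ls.length + 2 + mn.length - (10 * Ls.length + 2)) mn.length =
          mn.length by omega]; exact t2
      · rw [show min (16 * Ls.length + 3 + mn.length - (10 * Ls.length + 2)) mn.length =
          mn.length by omega]; exact t3

end

theorem verts_pt {γ : Type} [Enc γ] {Ls : γ → List Ln} {ev : γ → ℕ → List Ln} {T : γ → ℕ}
    {α β : γ → ℕ → ℕ} (hL : PT Ls) (hev : PT (fun z : γ × ℕ => ev z.1 z.2)) (hT : PT T)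
    (hTb : PB T) (hα : PT (fun z : γ × ℕ => α z.1 z.2)) (hβ : PT (fun z : γ × ℕ => β z.1 z.2)) :
    PT (fun x => verts (Ls x) (ev x) (T x) (α x) (β x)) := by
  classical
  obtain ⟨R, hR⟩ : ∃ R : γ → List ℕ, R = fun x => List.range (T x + 1) := ⟨_, rfl⟩
  have hR' : PT R := by rw [hR]; fun_prop
  have e : (fun x => verts (Ls x) (ev x) (T x) (α x) (β x)) = fun x =>
      (List.range 3 ×ˢ (Ls x ×ˢ (R x ×ˢ R x))).filter (fun v =>
      (v.1 = 0 ∧ v.2.2.1 ≤ v.2.2.2 ∧ (v.2.2.1 = 0 ∨ v.2.1 ∈ ev x (v.2.2.1 - 1)) ∧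
        (v.2.2.2 = T x ∨ v.2.1 ∈ ev x v.2.2.2) ∧
        ∀ t ∈ R x, t < v.2.2.2 → v.2.2.1 ≤ t → v.2.1 ∉ ev x t) ∨
      (v.1 = 1 ∧ v.2.2.2 = v.2.2.1 ∧ v.2.1 ∈ ev x v.2.2.1 ∧ ∃ i < 4, v.2.2.1 = β x i) ∨
      (v.1 = 2 ∧ v.2.1 = (0, 0) ∧ ∃ i < 5, v.2.2.1 = α x i ∧ v.2.2.2 = β x i)) := by
    funext x
    subst hR
    unfold verts IsPiece
    refine List.filter_congr fun v hv => ?_
    obtain ⟨k, l, s, e⟩ := v
    simp only [List.mem_product, List.mem_range] at hv
    rw [decide_eq_decide]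
    refine or_congr_left (and_congr_right fun _ => and_congr_right fun _ =>
      and_congr_right fun _ => and_congr_right fun _ => ?_)
    simp only [List.mem_range]
    exact ⟨fun h t _ => h t, fun h t a => h t (by omega) a⟩
  rw [e]
  have hev' : ∀ {δ : Type} [Enc δ] {f : δ → γ} {g : δ → ℕ}, PT f → PT g →
      PT (fun y => ev (f y) (g y)) := fun hf hg => hev.comp' (hf.prodMk hg)
  fun_prop

/-- The data of the reduction. -/
def nv (φ : List (Clause3 ℕ)) : ℕ := 3 * φ.length + 2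

def LsF (φ : List (Clause3 ℕ)) : List Ln := lines (nv φ) φ.length

def mnF (φ : List (Clause3 ℕ)) : List (List Ln) := mainEvs (nv φ) φ

def evF (φ : List (Clause3 ℕ)) : ℕ → List Ln :=
  sched (LsF φ) (mnF φ) (kind 0 (nv φ) ++ kind 2 φ.length) (kind 0 (nv φ))
    (kind 0 (nv φ) ++ kind 5 φ.length)

noncomputable def vsF (φ : List (Clause3 ℕ)) : List Vx :=
  verts (LsF φ) (evF φ) (20 * (LsF φ).length + 4 + (mnF φ).length)
    (alp (LsF φ).length (mnF φ).length) (bet (LsF φ).length (mnF φ).length)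

theorem layoutF (φ : List (Clause3 ℕ)) :
    Layout (LsF φ) (evF φ) (20 * (LsF φ).length + 4 + (mnF φ).length)
      (alp (LsF φ).length (mnF φ).length) (bet (LsF φ).length (mnF φ).length) := by
  have hn : 2 ≤ nv φ := by unfold nv; omega
  have key : ∀ P : List Ln, P.Nodup → P ⊆ LsF φ → (1, 0) ∉ P → P.length + 1 ≤ (LsF φ).length := by
    intro P h1 h2 h3
    have := (List.subperm_of_subset (List.nodup_cons.2 ⟨h3, h1⟩)
      (List.cons_subset.2 ⟨(mem_lines _ _ _ _).2 (by omega), h2⟩)).length_le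
    simpa [LsF] using this
  have s0 : kind 0 (nv φ) ⊆ LsF φ := by
    rintro ⟨t, i⟩ hx
    rw [mem_kind] at hx
    exact (mem_lines _ _ _ _).2 (by omega)
  have s1 : ∀ t, 2 ≤ t → t ≤ 7 → kind 0 (nv φ) ++ kind t φ.length ⊆ LsF φ := by
    intro s a b
    refine List.append_subset.2 ⟨s0, ?_⟩
    rintro ⟨t, i⟩ hx
    rw [mem_kind] at hx
    exact (mem_lines _ _ _ _).2 (by omega)
  refine sched_layout (lines_nodup _ _) ((mem_lines _ _ _ _).2 (by omega)) ?_
  simp only [List.mem_cons, List.not_mem_nil, or_false]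
  rintro P (rfl | rfl | rfl)
  · exact ⟨kinds_nodup (by omega) _ _, s1 2 (by omega) (by omega), by simp; omega,
      key _ (kinds_nodup (by omega) _ _) (s1 2 (by omega) (by omega)) (by simp [mem_kind])⟩
  · exact ⟨kind_nodup _ _, s0, by simp; omega, key _ (kind_nodup _ _) s0 (by simp [mem_kind])⟩
  · exact ⟨kinds_nodup (by omega) _ _, s1 5 (by omega) (by omega), by simp; omega,
      key _ (kinds_nodup (by omega) _ _) (s1 5 (by omega) (by omega)) (by simp [mem_kind])⟩

theorem LsF_pt : PT LsF := by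
  unfold LsF lines nv
  fun_prop

theorem mnF_pt : PT mnF := by
  unfold mnF mainEvs pairEvs block litLine nv
  fun_prop

theorem evF_pt : PT (fun z : List (Clause3 ℕ) × ℕ => evF z.1 z.2) := by
  have h1 := LsF_pt
  have h2 := mnF_pt
  unfold evF sched kind nv
  fun_prop

theorem vsF_pt : PT vsF := by
  have h1 := LsF_pt
  have h2 := mnF_pt
  unfold vsF
  refine verts_pt h1 evF_pt (by fun_prop) (by fun_prop) ?_ ?_
  · unfold alp bet; fun_prop
  · unfold bet; fun_prop

theorem interval_hard : HardOn (fun _ => True) (Inst (fun _ G => IsIntervalGraph G)) := by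
  classical
  refine hardOn_sat3.of_red (fun φ => ((vsF φ).map (fun a => (vsF φ).map
    (fun b => decide (intH.Adj a b))),
    budget (LsF φ) (evF φ) (bet (LsF φ).length (mnF φ).length))) ?_ fun φ hφ => ⟨trivial, ?_⟩
  · have h1 := LsF_pt
    have h2 := mnF_pt
    have h3 := vsF_pt
    have h4 := evF_pt
    have hev' : ∀ {g : List (Clause3 ℕ) → ℕ}, PT g → PT (fun y => (evF y (g y)).length) :=
      fun hg => (h4.comp' (PT.id'.prodMk hg)).length
    simp only [intH_adj]
    unfold lo hi budget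
    refine PT.prodMk (by fun_prop) ?_
    refine PT.add (PT.add (PT.add (PT.add (by fun_prop) ?_) ?_) ?_) ?_ <;>
      refine PT.sub (hev' ?_) (PT.const _) <;> unfold bet <;> fun_prop
  · have L := layoutF φ
    have hnd : (vsF φ).Nodup := verts_nodup L.nodup
    have hK : 0 < (LsF φ).length := List.length_pos_of_mem L.zero
    have e := adjRows_comap_get intH (vsF φ)
    have hv : ∀ v ∈ vars3 φ, v < nv φ := fun v h => by have := hφ v h; unfold nv; omega
    have g := good_iff (mn := mnF φ) (P1 := kind 0 (nv φ) ++ kind 2 φ.length)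
      (P2 := kind 0 (nv φ)) (P4 := kind 0 (nv φ) ++ kind 5 φ.length) L.nodup hK
      (List.subset_append_left _ _) (List.subset_append_left _ _)
    rw [← e, Inst, graphInst_adjRows, upWeight_le_iff, sol_comap_get _ hnd]
    refine ⟨fun h => ⟨?_, by unfold budget; omega, ?_⟩, fun h => ?_⟩
    · refine interval_of_nat _ (fun i => lo ((vsF φ).get i)) (fun i => hi ((vsF φ).get i))
        (fun i => L.lo_le_hi (List.get_mem _ _)) fun u v => ?_
      rw [SimpleGraph.comap_adj, intH_adj, (List.nodup_iff_injective_get.1 hnd).ne_iff]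
    · obtain ⟨col, hc⟩ := g.2 (route_complete φ hv h)
      exact graph_complete L hc
    · exact route_sound φ hv (g.1 (graph_sound L h.2.2))

theorem interval_complete_NP : IsCompleteFor NP (UCW (fun _ G => IsIntervalGraph G)) := by
  rw [ucw_eq]
  exact interval_hard.isComplete (fun _ _ => Iff.rfl) interval_mem_NP

end Pool.Agent.MP_07a0c6_lc

end
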