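import Pool.Agent.MP_07a0c6_lc.Mg.Interval

/-! A polynomial-time algorithm for forests: dynamic programming by leaf elimination. -/

namespace Pool.Agent.MP_07a0c6_lc

open Pool.Agent.Lib.Cx N68a2faeb N793a5b8e Function

/-- Table entries: colour, status (0 in the set, 1 dominated already, 2 not yet), cost. -/
abbrev Tr : Type := ℕ × ℕ × ℕ

def allT (B : ℕ) : List Tr := List.range (B + 1) ×ˢ (List.range 3 ×ˢ List.range (B + 1))

theorem mem_allT (B : ℕ) (t : Tr) : t ∈ allT B ↔ t.1 ≤ B ∧ t.2.1 < 3 ∧ t.2.2 ≤ B := by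
  obtain ⟨a, b, c⟩ := t
  simp only [allT, List.mem_product, List.mem_range]
  omega

/-- Total cost `w` is achievable with the given tables on the remaining vertices. -/
def Ach (A : ℕ → ℕ → Prop) (R : Finset ℕ) (F : ℕ → List Tr) (w : ℕ) : Prop :=
  ∃ σ : ℕ → Tr, (∀ v ∈ R, σ v ∈ F v) ∧ (∀ u ∈ R, ∀ v ∈ R, A u v → (σ u).1 ≠ (σ v).1) ∧
    (∀ v ∈ R, (σ v).2.1 = 2 → ∃ d ∈ R, A v d ∧ (σ d).2.1 = 0 ∧ (σ v).1 < (σ d).1) ∧
    ∑ v ∈ R, (σ v).2.2 = w

/-- The table of a vertex after absorbing a leaf. -/
def merge (B : ℕ) (Fv Fu : List Tr) : List Tr :=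
  (allT B).filter (fun t => ∃ a ∈ Fv, ∃ b ∈ Fu, t.1 = a.1 ∧ a.1 ≠ b.1 ∧ t.2.2 = a.2.2 + b.2.2 ∧
    (b.2.1 = 2 → a.2.1 = 0 ∧ b.1 < a.1) ∧
    (t.2.1 = a.2.1 ∨ (t.2.1 = 1 ∧ a.2.1 = 2 ∧ b.2.1 = 0 ∧ a.1 < b.1)))

theorem sum_two (R : Finset ℕ) {u v : ℕ} (hu : u ∈ R) (hv : v ∈ R) (hne : v ≠ u) (f : ℕ → ℕ) :
    ∑ x ∈ R, f x = f u + (f v + ∑ x ∈ (R.erase u).erase v, f x) := by
  rw [Finset.add_sum_erase _ _ (Finset.mem_erase.2 ⟨hne, hv⟩), Finset.add_sum_erase _ _ hu]

theorem ach_step {A : ℕ → ℕ → Prop} (hsymm : ∀ x y, A x y → A y x) (hirr : ∀ x, ¬ A x x)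
    {R : Finset ℕ} {F : ℕ → List Tr} {B u v w : ℕ} (hu : u ∈ R) (hv : v ∈ R) (huv : A u v)
    (hleaf : ∀ x ∈ R, A u x → x = v) (hF : ∀ t ∈ F v, t ∈ allT B) (hw : w ≤ B) :
    Ach A R F w ↔ Ach A (R.erase u) (update F v (merge B (F v) (F u))) w := by
  have hne : v ≠ u := fun h => hirr u (h ▸ huv)
  constructor
  · rintro ⟨σ, h1, h2, h3, h4⟩
    rw [sum_two R hu hv hne] at h4
    let t : Tr := ((σ v).1, if (σ v).2.1 = 2 ∧ (σ u).2.1 = 0 ∧ (σ v).1 < (σ u).1 then 1
      else (σ v).2.1, (σ v).2.2 + (σ u).2.2)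
    have hc : ∀ x, (update σ v t x).1 = (σ x).1 := fun x => by
      by_cases h : x = v
      · subst h; simp [t]
      · rw [update_of_ne h]
    refine ⟨update σ v t, fun x hx => ?_, fun x hx y hy h => ?_, fun x hx h => ?_, ?_⟩
    · by_cases h : x = v
      · subst h
        have := (mem_allT B _).1 (hF _ (h1 x hv))
        simp only [update_self, merge, List.mem_filter, decide_eq_true_eq, mem_allT]
        refine ⟨⟨this.1, ?_, by simp only [t]; omega⟩, σ x, h1 x hv, σ u, h1 u hu, rfl,
          h2 x hv u hu (hsymm _ _ huv), rfl, fun hs => ?_, ?_⟩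
        · simp only [t]; split_ifs <;> omega
        · obtain ⟨d, hd, e1, e2, e3⟩ := h3 u hu hs
          obtain rfl := hleaf d hd e1
          exact ⟨e2, e3⟩
        · simp only [t]; split_ifs with h <;> tauto
      · rw [update_of_ne h, update_of_ne h]
        exact h1 x (Finset.mem_of_mem_erase hx)
    · rw [hc, hc]
      exact h2 x (Finset.mem_of_mem_erase hx) y (Finset.mem_of_mem_erase hy) h
    · have hs : (σ x).2.1 = 2 ∧ (x = v → ¬ ((σ u).2.1 = 0 ∧ (σ v).1 < (σ u).1)) := by
        by_cases hx' : x = v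
        · subst hx'
          simp only [update_self, t] at h
          split_ifs at h with h' <;> tauto
        · rw [update_of_ne hx'] at h
          exact ⟨h, fun e => absurd e hx'⟩
      obtain ⟨d, hd, e1, e2, e3⟩ := h3 x (Finset.mem_of_mem_erase hx) hs.1
      have hdu : d ≠ u := by
        rintro rfl
        obtain rfl := hleaf x (Finset.mem_of_mem_erase hx) (hsymm _ _ e1)
        exact hs.2 rfl ⟨e2, e3⟩
      refine ⟨d, Finset.mem_erase.2 ⟨hdu, hd⟩, e1, ?_, by rw [hc, hc]; exact e3⟩
      by_cases hd' : d = v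
      · subst hd'
        simp only [update_self, t]
        split_ifs <;> omega
      · rw [update_of_ne hd']; exact e2
    · rw [← Finset.add_sum_erase _ _ (Finset.mem_erase.2 ⟨hne, hv⟩), ← h4,
        Finset.sum_congr rfl (fun x hx => by rw [update_of_ne (Finset.ne_of_mem_erase hx)])]
      simp only [update_self, t]
      omega
  · rintro ⟨σ, h1, h2, h3, h4⟩
    have hv' : v ∈ R.erase u := Finset.mem_erase.2 ⟨hne, hv⟩
    have := h1 v hv'
    simp only [update_self, merge, List.mem_filter, decide_eq_true_eq] at this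
    obtain ⟨-, a, ha, b, hb, e1, e2, e3, e4, e5⟩ := this
    have ku : update (update σ v a) u b u = b := by simp
    have kv : update (update σ v a) u b v = a := by rw [update_of_ne hne]; simp
    have ko : ∀ x, x ≠ u → x ≠ v → update (update σ v a) u b x = σ x := fun x a1 a2 => by
      rw [update_of_ne a1, update_of_ne a2]
    have hc : ∀ x, x ≠ u → (update (update σ v a) u b x).1 = (σ x).1 := fun x a1 => by
      by_cases h : x = v
      · subst h; rw [kv, e1]
      · rw [ko x a1 h]
    have hz : ∀ x, x ≠ u → (σ x).2.1 = 0 → (update (update σ v a) u b x).2.1 = 0 :=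
      fun x a1 a2 => by
        by_cases h : x = v
        · subst h; rw [kv]; omega
        · rw [ko x a1 h]; exact a2
    refine ⟨update (update σ v a) u b, fun x hx => ?_, fun x hx y hy h => ?_, fun x hx h => ?_, ?_⟩
    · by_cases a1 : x = u
      · subst a1; rw [ku]; exact hb
      · by_cases a2 : x = v
        · subst a2; rw [kv]; exact ha
        · have := h1 x (Finset.mem_erase.2 ⟨a1, hx⟩)
          rw [update_of_ne a2] at this
          rw [ko x a1 a2]; exact this
    · by_cases a1 : x = u
      · subst a1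
        obtain rfl := hleaf y hy h
        rw [ku, kv]; exact e2.symm
      · by_cases a2 : y = u
        · subst a2
          obtain rfl := hleaf x hx (hsymm _ _ h)
          rw [ku, kv]; exact e2
        · rw [hc x a1, hc y a2]
          exact h2 x (Finset.mem_erase.2 ⟨a1, hx⟩) y (Finset.mem_erase.2 ⟨a2, hy⟩) h
    · by_cases a1 : x = u
      · subst a1
        rw [ku] at h
        exact ⟨v, hv, huv, by rw [kv]; exact (e4 h).1, by rw [ku, kv]; exact (e4 h).2⟩
      · have main : (σ x).2.1 = 2 → ∃ d ∈ R, A x d ∧ (update (update σ v a) u b d).2.1 = 0 ∧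
            (update (update σ v a) u b x).1 < (update (update σ v a) u b d).1 := fun hs => by
          obtain ⟨d, hd, b1, b2, b3⟩ := h3 x (Finset.mem_erase.2 ⟨a1, hx⟩) hs
          have hdu := Finset.ne_of_mem_erase hd
          exact ⟨d, Finset.mem_of_mem_erase hd, b1, hz d hdu b2, by rw [hc x a1, hc d hdu]; exact b3⟩
        by_cases a2 : x = v
        · subst a2
          rw [kv] at h
          rcases e5 with e5 | e5
          · exact main (by omega)
          · exact ⟨u, hu, hsymm _ _ huv, by rw [ku]; omega, by rw [ku, kv]; omega⟩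
        · rw [ko x a1 a2] at h
          exact main h
    · rw [← Finset.add_sum_erase _ _ hv'] at h4
      rw [sum_two R hu hv hne, ku, kv, Finset.sum_congr rfl (fun x hx => by
        rw [ko x (Finset.ne_of_mem_erase (Finset.mem_of_mem_erase hx))
          (Finset.ne_of_mem_erase hx)])]
      omega

/-- The initial table. -/
def table0 (B : ℕ) : List Tr :=
  (allT B).filter (fun t => (t.2.1 = 0 ∧ t.1 ≠ 0 ∧ t.2.2 = t.1) ∨ (t.2.1 = 2 ∧ t.2.2 = 0))

theorem ach_init {n : ℕ} (G : SimpleGraph (Fin n)) {B w : ℕ} (hw : w ≤ B) (F : ℕ → List Tr)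
    (hF : ∀ v < n, F v = table0 B) :
    Ach (fun i j => ent (adjRows G) i j = true) (Finset.range n) F w ↔
      ∃ (c : Fin n → ℕ) (D : Finset (Fin n)), IsColoring G c ∧ IsUpDom G c D ∧
        w = ∑ d ∈ D, c d := by
  classical
  constructor
  · rintro ⟨σ, h1, h2, h3, h4⟩
    have h5 : ∀ v : Fin n, ((σ v).2.1 = 0 ∧ (σ v).1 ≠ 0 ∧ (σ v).2.2 = (σ v).1) ∨
        ((σ v).2.1 = 2 ∧ (σ v).2.2 = 0) := fun v => by
      have := h1 v (by simp)
      rw [hF v v.2] at this
      simpa [table0] using (List.mem_filter.1 this).2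
    refine ⟨fun v => (σ v).1, Finset.univ.filter (fun v => (σ v).2.1 = 0),
      fun u v h => h2 u (by simp) v (by simp) ((ent_adjRows G u v).2 h),
      ⟨fun d hd => ?_, fun v hv => ?_⟩, ?_⟩
    · have := h5 d
      simp only [Finset.mem_filter, Finset.mem_univ, true_and] at hd
      simp only
      omega
    · have := h5 v
      simp only [Finset.mem_filter, Finset.mem_univ, true_and] at hv
      obtain ⟨d, hd, e1, e2, e3⟩ := h3 v (by simp) (by omega)
      have hd' := Finset.mem_range.1 hd
      exact ⟨⟨d, hd'⟩, by simpa using e2, (ent_adjRows G v ⟨d, hd'⟩).1 e1, e3⟩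
    · rw [← h4, Finset.sum_filter, ← Fin.sum_univ_eq_sum_range (fun v => (σ v).2.2) n]
      refine Finset.sum_congr rfl fun v _ => ?_
      have := h5 v
      split_ifs <;> omega
  · rintro ⟨c, D, h1, ⟨h2, h3⟩, h4⟩
    have hD : ∀ d ∈ D, c d ≤ B := fun d hd =>
      (Finset.single_le_sum (f := c) (fun _ _ => Nat.zero_le _) hd).trans (h4 ▸ hw)
    have hB : ∀ v, c v ≤ B := fun v => by
      by_cases hi : v ∈ D
      · exact hD v hi
      · obtain ⟨d, hd, -, e⟩ := h3 v hi
        exact e.le.trans (hD d hd)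
    let τ : Fin n → Tr := fun v => if v ∈ D then (c v, 0, c v) else (c v, 2, 0)
    let σ : ℕ → Tr := fun v => if h : v < n then τ ⟨v, h⟩ else (0, 0, 0)
    have hσ : ∀ v (h : v < n), σ v = τ ⟨v, h⟩ := fun v h => dif_pos h
    have hτ : ∀ v, (τ v).1 = c v := fun v => by simp only [τ]; split_ifs <;> rfl
    refine ⟨σ, fun v hv => ?_, fun u hu v hv h => ?_, fun v hv h => ?_, ?_⟩
    · have hv' := Finset.mem_range.1 hv
      rw [hF v hv', hσ v hv']
      have := hB ⟨v, hv'⟩
      simp only [table0, List.mem_filter, mem_allT, decide_eq_true_eq, τ]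
      split_ifs with h
      · have := h2 _ h
        simp [*]
      · simp [*]
    · have hu' := Finset.mem_range.1 hu
      have hv' := Finset.mem_range.1 hv
      rw [hσ u hu', hσ v hv', hτ, hτ]
      exact h1 _ _ ((ent_adjRows' G hu' hv').1 h)
    · have hv' := Finset.mem_range.1 hv
      rw [hσ v hv'] at h ⊢
      have hnD : (⟨v, hv'⟩ : Fin n) ∉ D := fun hd => by simp [τ, hd] at h
      obtain ⟨d, hd, e1, e2⟩ := h3 _ hnD
      refine ⟨d, by simp, (ent_adjRows G ⟨v, hv'⟩ d).2 e1, ?_, ?_⟩
      · rw [hσ d d.2]; simp [τ, hd]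
      · rw [hσ d d.2, hτ, hτ]; exact e2
    · rw [h4, ← Fin.sum_univ_eq_sum_range (fun v => (σ v).2.2) n]
      rw [Finset.sum_congr rfl (fun (v : Fin n) _ => show (σ v).2.2 = if v ∈ D then c v else 0 by
        rw [hσ v v.2]; simp only [τ]; split_ifs <;> rfl)]
      simp

/-- The best cost in a table for an isolated vertex. -/
def best (B : ℕ) (T : List Tr) : ℕ := ((T.filter (fun t => t.2.1 ≠ 2)).map (·.2.2)).foldr min B

theorem foldr_min_spec (B : ℕ) (l : List ℕ) :
    (∀ x ∈ l, l.foldr min B ≤ x) ∧ (l.foldr min B = B ∨ l.foldr min B ∈ l) := by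
  induction l with
  | nil => simp
  | cons a l ih =>
    obtain ⟨i1, i2⟩ := ih
    refine ⟨fun x hx => ?_, ?_⟩
    · rcases List.mem_cons.1 hx with rfl | hx
      · simp
      · exact (min_le_right _ _).trans (i1 x hx)
    · rw [List.foldr_cons]
      rcases le_total a (l.foldr min B) with h | h
      · rw [min_eq_left h]; simp
      · rw [min_eq_right h]
        rcases i2 with i2 | i2
        · exact Or.inl i2
        · exact Or.inr (List.mem_cons_of_mem _ i2)

theorem ach_final {A : ℕ → ℕ → Prop} {R : Finset ℕ} {F : ℕ → List Tr} {B w : ℕ}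
    (hA : ∀ u ∈ R, ∀ v ∈ R, ¬ A u v) (hw : w ≤ B) (h : Ach A R F w) :
    ∑ v ∈ R, best B (F v) ≤ w ∧ Ach A R F (∑ v ∈ R, best B (F v)) := by
  obtain ⟨σ, h1, -, h3, h4⟩ := h
  have hm : ∀ v ∈ R, (σ v).2.2 ∈ ((F v).filter (fun t => t.2.1 ≠ 2)).map (·.2.2) := by
    intro v hv
    refine List.mem_map_of_mem (List.mem_filter.2 ⟨h1 v hv, ?_⟩)
    simp only [ne_eq, decide_eq_true_eq]
    intro hs
    obtain ⟨d, hd, e, -⟩ := h3 v hv hs
    exact hA v hv d hd e
  have hle : ∀ v ∈ R, best B (F v) ≤ (σ v).2.2 := fun v hv =>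
    (foldr_min_spec B _).1 _ (hm v hv)
  have hex : ∀ v, ∃ t : Tr, v ∈ R → t ∈ F v ∧ t.2.1 ≠ 2 ∧ t.2.2 = best B (F v) := by
    intro v
    by_cases hv : v ∈ R
    · have key : best B (F v) ∈ ((F v).filter (fun t => t.2.1 ≠ 2)).map (·.2.2) := by
        rcases (foldr_min_spec B (((F v).filter (fun t => t.2.1 ≠ 2)).map (·.2.2))).2 with e | e
        · have a1 := hle v hv
          have a2 : (σ v).2.2 ≤ w := h4 ▸
            Finset.single_le_sum (f := fun v => (σ v).2.2) (fun _ _ => Nat.zero_le _) hv
          have a3 : best B (F v) = (σ v).2.2 := by unfold best at a1 ⊢; omega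
          rw [a3]; exact hm v hv
        · exact e
      obtain ⟨t, ht, e⟩ := List.mem_map.1 key
      rw [List.mem_filter] at ht
      exact ⟨t, fun _ => ⟨ht.1, by simpa using ht.2, e⟩⟩
    · exact ⟨(0, 0, 0), fun h => absurd h hv⟩
  choose τ hτ using hex
  exact ⟨h4 ▸ Finset.sum_le_sum hle, τ, fun v hv => (hτ v hv).1,
    fun u hu v hv h => absurd h (hA u hu v hv), fun v hv h => absurd h (hτ v hv).2.1,
    Finset.sum_congr rfl fun v hv => (hτ v hv).2.2⟩

/-- Look for a leaf among the remaining vertices. -/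
def findLeaf (M : List (List Bool)) (R : List ℕ) : Option (ℕ × ℕ) :=
  (R ×ˢ R).find? (fun p => ent M p.1 p.2 = true ∧ ∀ x ∈ R, ent M p.1 x = true → x = p.2)

/-- One round of the algorithm. -/
def round (M : List (List Bool)) (s : List ℕ × List (List Tr)) : List ℕ × List (List Tr) :=
  (findLeaf M s.1).elim s (fun p => (s.1.filter (· ≠ p.1),
    s.2.set p.2 (merge (M.length * M.length) (s.2.getD p.2 []) (s.2.getD p.1 []))))

def start (M : List (List Bool)) : List ℕ × List (List Tr) :=
  (List.range M.length, List.replicate M.length (table0 (M.length * M.length)))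

def finish (M : List (List Bool)) (s : List ℕ × List (List Tr)) : ℕ :=
  (s.1.map (fun v => best (M.length * M.length) (s.2.getD v []))).sum

/-- The algorithm. -/
def treeAlg (M : List (List Bool)) : ℕ := finish M ((round M)^[M.length] (start M))

theorem round_shape (M : List (List Bool)) (i : ℕ) :
    ((round M)^[i] (start M)).1.Sublist (List.range M.length) ∧
    ((round M)^[i] (start M)).2.length = M.length ∧
    ∀ T ∈ ((round M)^[i] (start M)).2, T.Sublist (allT (M.length * M.length)) := by
  induction i with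
  | zero =>
    refine ⟨List.Sublist.refl _, by simp [start], fun T hT => ?_⟩
    obtain rfl := List.eq_of_mem_replicate hT
    exact List.filter_sublist
  | succ i ih =>
    rw [Function.iterate_succ_apply']
    generalize (round M)^[i] (start M) = s at ih
    unfold round
    cases findLeaf M s.1 with
    | none => exact ih
    | some p =>
      refine ⟨List.filter_sublist.trans ih.1, by simp [ih.2.1], fun T hT => ?_⟩
      rcases List.mem_or_eq_of_mem_set hT with h | rfl
      · exact ih.2.2 T h
      · exact List.filter_sublist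

theorem treeAlg_pt : PT treeAlg := by
  have h0 : PT (fun M : List (List Bool) => allT (M.length * M.length)) := by
    unfold allT; fun_prop
  have h1 : PT (fun z : List (List Bool) × List ℕ × List (List Tr) => round z.1 z.2) := by
    unfold round findLeaf merge allT; fun_prop
  have h2 : PT start := by unfold start table0 allT; fun_prop
  have h3 : PT (fun M => (round M)^[M.length] (start M)) := by
    refine PT.iterate h1 (by fun_prop) (by fun_prop) h2 (fun M => 2 * size (List.range M.length) +
      1 + M.length * (2 * size (allT (M.length * M.length)) + 1)) (by fun_prop) fun M i _ => ?_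
    obtain ⟨e1, e2, e3⟩ := round_shape M i
    have a1 := size_sublist e1
    have a2 := size_list_le _ _ (fun T hT => size_sublist (e3 T hT))
    rw [e2] at a2
    rw [size_prod]
    omega
  have h4 : PT (fun z : List (List Bool) × List ℕ × List (List Tr) => finish z.1 z.2) := by
    unfold finish best; fun_prop
  exact h4.comp' (PT.prodMk PT.id' h3)

theorem round_inv {n : ℕ} (G : SimpleGraph (Fin n)) (i : ℕ) :
    (findLeaf (adjRows G) ((round (adjRows G))^[i] (start (adjRows G))).1 = none ∨
      ((round (adjRows G))^[i] (start (adjRows G))).1.length + i ≤ n) ∧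
    ∀ w ≤ n * n, (Ach (fun i j => ent (adjRows G) i j = true)
      ((round (adjRows G))^[i] (start (adjRows G))).1.toFinset
      (fun v => ((round (adjRows G))^[i] (start (adjRows G))).2.getD v []) w ↔
      ∃ (c : Fin n → ℕ) (D : Finset (Fin n)), IsColoring G c ∧ IsUpDom G c D ∧
        w = ∑ d ∈ D, c d) := by
  induction i with
  | zero =>
    refine ⟨Or.inr (by simp [start]), fun w hw => ?_⟩
    rw [← ach_init G hw (fun v => (start (adjRows G)).2.getD v []) (fun v hv => by
      simp [start, hv])]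
    simp [start, List.toFinset_range]
  | succ i ih =>
    have hs := round_shape (adjRows G) i
    rw [Function.iterate_succ_apply']
    generalize (round (adjRows G))^[i] (start (adjRows G)) = s at ih hs
    rw [length_adjRows] at hs
    obtain ⟨i1, i2⟩ := ih
    cases hf : findLeaf (adjRows G) s.1 with
    | none =>
      have : round (adjRows G) s = s := by simp [round, hf]
      rw [this]
      exact ⟨Or.inl hf, i2⟩
    | some p =>
      obtain ⟨u, v⟩ := p
      have e1 := List.find?_some hf
      have e2 := List.mem_of_find?_eq_some hf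
      simp only [decide_eq_true_eq] at e1
      rw [List.mem_product] at e2
      have hr : round (adjRows G) s = (s.1.filter (· ≠ u),
          s.2.set v (merge (n * n) (s.2.getD v []) (s.2.getD u []))) := by simp [round, hf]
      rw [hr]
      have hv : v < s.2.length := by
        rw [hs.2.1]; exact List.mem_range.1 (hs.1.subset e2.2)
      refine ⟨Or.inr ?_, fun w hw => ?_⟩
      · have := List.length_filter_lt_length_iff_exists (l := s.1) (p := fun x => decide (x ≠ u))
        have := this.2 ⟨u, e2.1, by simp⟩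
        rw [hf] at i1
        simp only [reduceCtorEq, false_or] at i1
        simp only
        omega
      · rw [← i2 w hw, ach_step (u := u) (v := v) (B := n * n)
          (fun x y h => ?_) (fun x h => ?_) (List.mem_toFinset.2 e2.1) (List.mem_toFinset.2 e2.2)
          e1.1 (fun x hx => e1.2 x (List.mem_toFinset.1 hx)) (fun t ht => ?_) hw]
        · congr! 1
          · ext x; simp [and_comm]
          · funext x
            by_cases hx : x = v
            · subst hx; simp [hv]
            · rw [update_of_ne hx]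
              simp [List.getElem?_set_ne (Ne.symm hx)]
        · obtain ⟨a1, a2⟩ := ent_adjRows_lt G h
          exact (ent_adjRows' G a2 a1).2 ((ent_adjRows' G a1 a2).1 h).symm
        · obtain ⟨a1, -⟩ := ent_adjRows_lt G h
          exact ((ent_adjRows' G a1 a1).1 h).ne rfl
        · simp only [List.getD_eq_getElem?_getD, List.getElem?_eq_getElem hv,
            Option.getD_some] at ht
          exact (hs.2.2 _ (List.getElem_mem hv)).subset ht

theorem treeAlg_spec {n : ℕ} (G : SimpleGraph (Fin n)) (hG : G.IsAcyclic) :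
    treeAlg (adjRows G) = upWeight G := by
  obtain ⟨i1, i2⟩ := round_inv G n
  have hs := round_shape (adjRows G) n
  unfold treeAlg finish
  rw [length_adjRows] at hs ⊢
  generalize (round (adjRows G))^[n] (start (adjRows G)) = s at i1 i2 hs
  have hnone : findLeaf (adjRows G) s.1 = none := by
    rcases i1 with h | h
    · exact h
    · have : s.1 = [] := List.length_eq_zero_iff.1 (by omega)
      rw [this]; rfl
  have hA : ∀ u ∈ s.1.toFinset, ∀ v ∈ s.1.toFinset, ¬ (ent (adjRows G) u v = true) := by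
    intro u hu v hv h
    obtain ⟨a1, a2⟩ := ent_adjRows_lt G h
    obtain ⟨x, y, e1, e2⟩ := exists_leaf (hG.induce {x | x.1 ∈ s.1})
      (a := ⟨⟨u, a1⟩, List.mem_toFinset.1 hu⟩) (b := ⟨⟨v, a2⟩, List.mem_toFinset.1 hv⟩)
      ((ent_adjRows' G a1 a2).1 h)
    have := List.find?_eq_none.1 hnone (x.1.1, y.1.1) (List.mem_product.2 ⟨x.2, y.2⟩)
    simp only [decide_eq_true_eq] at this
    refine this ⟨(ent_adjRows G _ _).2 e1, fun z hz h' => ?_⟩
    obtain ⟨-, a3⟩ := ent_adjRows_lt G h'
    have := e2 ⟨⟨z, a3⟩, hz⟩ ((ent_adjRows G x.1 ⟨z, a3⟩).1 h')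
    rw [← this]
  have hB : upWeight G ≤ n * n := (upWeight_le_iff G _).2 (sol_sq G)
  obtain ⟨c, D, h1, h2, -⟩ := sol_sq G
  have hmem := Nat.sInf_mem (s := {w : ℕ | ∃ (c : Fin n → ℕ)
      (D : Finset (Fin n)), IsColoring G c ∧ IsUpDom G c D ∧ w = ∑ d ∈ D, c d})
      ⟨_, c, D, h1, h2, rfl⟩
  obtain ⟨b1, b2⟩ := ach_final hA hB ((i2 _ hB).2 hmem)
  have b3 := (i2 _ (b1.trans hB)).1 b2
  rw [← List.sum_toFinset _ (hs.1.nodup List.nodup_range)]
  exact le_antisymm b1 (Nat.sInf_le b3)

end Pool.Agent.MP_07a0c6_lc
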